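import Pool.Agent.Helper317.TP.Val

/-!
The combinatorial construction in the standard numbers.
-/

namespace Pool.Agent.Helper317.TP

open Function SOA

/-! coding of finite binary strings etc. by numbers -/

def cd (l : List Bool) : ℕ := Encodable.encode l
def dc (m : ℕ) : List Bool := (Encodable.decode (α := List Bool) m).getD []
@[simp] theorem dc_cd (l : List Bool) : dc (cd l) = l := by simp [cd, dc]
def cdN (l : List ℕ) : ℕ := Encodable.encode l
def dcN (m : ℕ) : List ℕ := (Encodable.decode (α := List ℕ) m).getD []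
@[simp] theorem dcN_cdN (l : List ℕ) : dcN (cdN l) = l := by simp [cdN, dcN]

/-- the base sets -/
def base (tag idx : ℕ) : Set ℕ :=
  match tag with
  | 0 => {i | ∃ y z, i = pr y z ∧ y ≤ (dc z).length}
  | 1 => {i | ∃ z' z m, i = pr z' z ∧ z' = cd ((dc z).take m)}
  | 2 => {i | ∃ x z, i = pr x z ∧ (dc z).getD x false = true}
  | 3 => {i | ∃ u y, i = pr u y ∧ y = Zf u}
  | 7 => {i | ∃ s y, i = pr s y ∧ y = (dcN s).getD idx 0}
  | _ => ∅

/-- the base sets as an assignment of set variables -/
def BB (m : ℕ) : Set ℕ := base m.unpair.1 m.unpair.2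

@[simp] theorem BB_pair (t i : ℕ) : BB (Nat.pair t i) = base t i := by simp [BB]

/-- truth in the standard numbers with the base sets -/
def satN (ρ : ℕ → ℕ) (φ : Fm) : Prop := Sat NM ρ BB φ

theorem satN_congr {ρ ρ' : ℕ → ℕ} (φ : Fm) (h : ∀ i < φ.bd, ρ i = ρ' i) : satN ρ φ ↔ satN ρ' φ :=
  sat_congr φ h (fun _ _ => rfl)

/-- assignment with three values -/
def a3 (z s x : ℕ) : ℕ → ℕ := fun p => if p = 0 then z else if p = 1 then s else if p = 2 then x else 0

/-- extension of conditions: new elements `(x,t)` have `x` at least `k` -/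
def Ext (k : ℕ) (p q : List Bool) : Prop :=
  p <+: q ∧ ∀ i, p.length ≤ i → q.getD i false = true → ∃ a, k ≤ a ∧ ∃ t, i = pr a t

theorem Ext.refl (E : ℕ) (p : List Bool) : Ext E p p := by
  refine ⟨List.prefix_rfl, fun i hi h => ?_⟩
  rw [List.getD_eq_default _ _ hi] at h
  exact absurd h (by simp)

theorem prefix_getD {p q : List Bool} (h : p <+: q) {i : ℕ} (hi : i < p.length) :
    p.getD i false = q.getD i false := by
  obtain ⟨r, rfl⟩ := h
  simp [List.getD_eq_getElem?_getD, List.getElem?_append_left hi]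

theorem Ext.trans {E : ℕ} {p q r : List Bool} (h1 : Ext E p q) (h2 : Ext E q r) : Ext E p r := by
  refine ⟨h1.1.trans h2.1, fun i hi h => ?_⟩
  by_cases hq : i < q.length
  · rw [← prefix_getD h2.1 hq] at h
    exact h1.2 i hi h
  · exact h2.2 i (not_lt.1 hq) h

theorem Ext.mono {E E' : ℕ} (hE : E' ≤ E) {p q : List Bool} (h : Ext E p q) : Ext E' p q := by
  refine ⟨h.1, fun i hi hq => ?_⟩
  obtain ⟨a, ha, t, ht⟩ := h.2 i hi hq
  exact ⟨a, hE.trans ha, t, ht⟩

/-- assignment given by a first value and a list -/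
def lasg (z : ℕ) (L : List ℕ) : ℕ → ℕ
  | 0 => z
  | p + 1 => L.getD p 0

/-- the formula is witnessed by an initial segment of the condition -/
def holds (φ : Fm) (L : List ℕ) (q : List Bool) : Prop :=
  ∃ m ≤ q.length, satN (lasg (cd (q.take m)) L) φ

theorem take_prefix {p q : List Bool} (h : p <+: q) {m : ℕ} (hm : m ≤ p.length) :
    q.take m = p.take m := by
  obtain ⟨r, rfl⟩ := h
  rw [List.take_append_of_le_length hm]

theorem holds_mono {φ : Fm} {L : List ℕ} {p q : List Bool} (h : p <+: q) (hp : holds φ L p) :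
    holds φ L q := by
  obtain ⟨m, hm, hs⟩ := hp
  refine ⟨m, hm.trans h.length_le, ?_⟩
  rwa [take_prefix h hm]

theorem decide_finite {ι : Type*} (E : ℕ) (R : ι → List Bool → Prop)
    (up : ∀ i q q', q <+: q' → R i q → R i q') {s : Set ι} (hs : s.Finite) (p : List Bool) :
    ∃ q, Ext E p q ∧ ∀ i ∈ s, ∀ q', Ext E q q' → R i q' → R i q := by
  induction s, hs using Set.Finite.induction_on with
  | empty => exact ⟨p, Ext.refl E p, by simp⟩
  | @insert a s _ _ ih =>
    obtain ⟨q, hq, h⟩ := ih
    by_cases hR : ∃ q', Ext E q q' ∧ R a q'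
    · obtain ⟨q', hq', hRq⟩ := hR
      refine ⟨q', hq.trans hq', ?_⟩
      intro i hi q'' hq'' hRi
      rcases Set.mem_insert_iff.1 hi with rfl | hi
      · exact hRq
      · exact up i _ _ hq'.1 (h i hi q'' (hq'.trans hq'') hRi)
    · refine ⟨q, hq, ?_⟩
      intro i hi q'' hq'' hRi
      rcases Set.mem_insert_iff.1 hi with rfl | hi
      · exact absurd ⟨q'', hq'', hRi⟩ hR
      · exact h i hi q'' hq'' hRi

/-- the finite set of small lists -/
def smallLists (m : ℕ) : Set (List ℕ) := {L | L.length ≤ m ∧ ∀ a ∈ L, a < m}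

theorem smallLists_finite (m : ℕ) : (smallLists m).Finite := by
  have h : smallLists m ⊆ (fun l : List (Fin m) => l.map (fun a : Fin m => (a : ℕ))) '' {l | l.length ≤ m} := by
    rintro L ⟨h1, h2⟩
    refine ⟨L.attach.map (fun a => (⟨a.1, h2 a.1 a.2⟩ : Fin m)), ?_, ?_⟩
    · simpa using h1
    · show List.map (fun a : Fin m => (a : ℕ)) (List.map _ L.attach) = L
      rw [List.map_map]
      exact List.attach_map_subtype_val L
  exact Set.Finite.subset ((List.finite_length_le (Fin m) m).image _) h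

/-- codes of finite sets -/
theorem exists_preCode (A : Finset ℕ) : ∃ c, NM.PreCode c (A : Set ℕ) := by
  classical
  obtain ⟨k, hk⟩ : ∃ k, ∀ i ∈ A, i < k := ⟨A.sup id + 1, fun i hi => Nat.lt_succ_of_le (Finset.le_sup (f := id) hi)⟩
  let m := k.factorial
  have hm : 0 < m := Nat.factorial_pos k
  refine ⟨pr k (pr m (∏ i ∈ A, (m * (i + 1) + 1))), k, m, ∏ i ∈ A, (m * (i + 1) + 1), rfl, ?_⟩
  intro i
  constructor
  · intro hi
    refine ⟨hk i hi, ?_⟩
    obtain ⟨c, hc⟩ := Finset.dvd_prod_of_mem (fun i => m * (i + 1) + 1) (show i ∈ A from hi)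
    exact ⟨c, hc.symm⟩
  · rintro ⟨hik, c, hc⟩
    by_contra hi
    have hik' : i < k := hik
    have hdvd : (m * (i + 1) + 1) ∣ ∏ j ∈ A, (m * (j + 1) + 1) := ⟨c, hc.symm⟩
    have hcop : Nat.Coprime (m * (i + 1) + 1) (∏ j ∈ A, (m * (j + 1) + 1)) := by
      apply Nat.Coprime.prod_right
      intro j hj
      have hjk := hk j hj
      have hij : i ≠ j := fun h => hi (h ▸ hj)
      have e1 : m * (i + 1) + 1 = (i + 1) * m + 1 := by ring
      have e2 : m * (j + 1) + 1 = (j + 1) * m + 1 := by ring
      rw [e1, e2]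
      rcases lt_or_gt_of_ne hij with h | h
      · refine Nat.coprime_mul_succ (Nat.dvd_factorial (Nat.sub_pos_of_lt (Nat.succ_lt_succ h)) ?_)
        omega
      · refine Nat.Coprime.symm (Nat.coprime_mul_succ (Nat.dvd_factorial (Nat.sub_pos_of_lt (Nat.succ_lt_succ h)) ?_))
        omega
    have h1 := Nat.Coprime.eq_one_of_dvd hcop hdvd
    have h2 : m * (i + 1) = 0 := by omega
    have h3 : 0 < m * (i + 1) := Nat.mul_pos hm (Nat.succ_pos i)
    omega

theorem exists_code (A : Finset ℕ) : ∃ c, NM.Code c (A : Set ℕ) := by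
  classical
  have h := exists_preCode A
  refine ⟨Nat.find h, Nat.find_spec h, fun c' hc' hlt => Nat.find_min h hlt hc'⟩

/-- the graph of the value function below `s` -/
def Gset (s : ℕ) : Set ℕ := {i | ∃ x < s, i = pr x (Zf x)}

theorem exists_code_Gset (s : ℕ) : ∃ c, NM.Code c (Gset s) := by
  classical
  obtain ⟨c, hc⟩ := exists_code ((Finset.range s).image fun x => pr x (Zf x))
  refine ⟨c, ?_⟩
  have : ((Finset.range s).image (fun x => pr x (Zf x)) : Set ℕ) = Gset s := by
    ext i; simp [Gset, eq_comm]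
  rwa [this] at hc

/-- the code of the graph -/
noncomputable def codeG (s : ℕ) : ℕ := (exists_code_Gset s).choose

theorem codeG_spec (s : ℕ) : NM.Code (codeG s) (Gset s) := (exists_code_Gset s).choose_spec

/-- growth requirement -/
theorem exists_growth : ∃ Gr : ℕ → ℕ, ∀ m, (∀ a b, a ≤ m → b ≤ m → pr a b ≤ Gr m) ∧
    (∀ a b, a ≤ m → b ≤ m → a * b ≤ Gr m) ∧
    (∀ a, a ≤ m → codeG a ≤ Gr m) ∧ (∀ L ∈ smallLists m, cdN L ≤ Gr m) ∧
    (∀ a, a ≤ m → Zf a ≤ Gr m) := by
  have h1 : ∀ m (F : ℕ → ℕ → ℕ), ∃ G, ∀ a b, a ≤ m → b ≤ m → F a b ≤ G := by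
    intro m F
    have hf : (((Set.Iic m) ×ˢ (Set.Iic m)).image (fun p : ℕ × ℕ => F p.1 p.2)).Finite :=
      ((Set.finite_Iic m).prod (Set.finite_Iic m)).image _
    obtain ⟨G, hG⟩ := hf.bddAbove
    exact ⟨G, fun a b ha hb => hG ⟨(a, b), ⟨ha, hb⟩, rfl⟩⟩
  have h2 : ∀ m, ∃ G, ∀ L ∈ smallLists m, cdN L ≤ G := by
    intro m
    obtain ⟨G, hG⟩ := ((smallLists_finite m).image cdN).bddAbove
    exact ⟨G, fun L hL => hG ⟨L, hL, rfl⟩⟩
  choose G1 hG1 using fun m => h1 m pr
  choose G2 hG2 using fun m => h1 m (· * ·)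
  choose G3 hG3 using fun m => h1 m (fun a _ => codeG a)
  choose G4 hG4 using h2
  choose G5 hG5 using fun m => h1 m (fun a _ => Zf a)
  refine ⟨fun m => G1 m + G2 m + G3 m + G4 m + G5 m, fun m => ⟨?_, ?_, ?_, ?_, ?_⟩⟩
  · intro a b ha hb; have := hG1 m a b ha hb; show _ ≤ G1 m + G2 m + G3 m + G4 m + G5 m; omega
  · intro a b ha hb; have := hG2 m a b ha hb; show _ ≤ G1 m + G2 m + G3 m + G4 m + G5 m; omega
  · intro a ha; have := hG3 m a a ha ha; show _ ≤ G1 m + G2 m + G3 m + G4 m + G5 m; omega
  · intro L hL; have := hG4 m L hL; show _ ≤ G1 m + G2 m + G3 m + G4 m + G5 m; omega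
  · intro a ha; have := hG5 m a a ha ha; show _ ≤ G1 m + G2 m + G3 m + G4 m + G5 m; omega

/-- a fixed growth function -/
noncomputable def Gr : ℕ → ℕ := exists_growth.choose
theorem Gr_spec : ∀ m, (∀ a b, a ≤ m → b ≤ m → pr a b ≤ Gr m) ∧
    (∀ a b, a ≤ m → b ≤ m → a * b ≤ Gr m) ∧
    (∀ a, a ≤ m → codeG a ≤ Gr m) ∧ (∀ L ∈ smallLists m, cdN L ≤ Gr m) ∧
    (∀ a, a ≤ m → Zf a ≤ Gr m) :=
  exists_growth.choose_spec

/-- properties of one step of the construction -/
structure IsStep (E : ℕ) (p q : List Bool) : Prop where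
  ext : Ext E p q
  growth : Gr p.length < q.length
  longer : p.length < q.length
  decided : ∀ e < p.length, ∀ L ∈ smallLists p.length, ∀ q', Ext E q q' →
    holds (en e) L q' → holds (en e) L q
  hit : ∀ i < p.length, E ≤ i → ∃ t, p.length < t ∧ q.getD (pr i t) false = true

theorem exists_step (E : ℕ) (p : List Bool) : ∃ q, IsStep E p q := by
  classical
  obtain ⟨q1, h1, h2⟩ := decide_finite E (fun (r : ℕ × List ℕ) q => holds (en r.1) r.2 q)
    (fun i q q' h hq => holds_mono h hq)
    (((Set.finite_Iio p.length).prod (smallLists_finite p.length))) p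
  -- final extension
  let l := q1.length
  let R := Gr p.length + l + p.length + pr p.length (l + p.length + 1) + (p.length + (l + p.length + 1)) * (p.length + (l + p.length + 1)) + 1
  let t0 := l + p.length + 1
  let tail := (List.range (R - l)).map fun i =>
    decide (∃ a, E ≤ a ∧ a < p.length ∧ l + i = pr a t0)
  let q := q1 ++ tail
  have hR : l < R := by simp only [R]; omega
  have hlen : q.length = R := by simp [q, tail]; omega
  have hget : ∀ i, l ≤ i → i < R → (q.getD i false = true ↔ ∃ a, E ≤ a ∧ a < p.length ∧ i = pr a t0) := by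
    intro i hi hiR
    have e1 : q.getD i false = tail.getD (i - l) false := by
      simp only [q, List.getD_eq_getElem?_getD]
      rw [List.getElem?_append_right hi]
    rw [e1]
    have e2 : i - l < R - l := by omega
    simp only [tail, List.getD_eq_getElem?_getD, List.getElem?_map, List.getElem?_range e2]
    simp only [Option.map_some, Option.getD_some, decide_eq_true_eq]
    rw [Nat.add_sub_cancel' hi]
  have hext : Ext E q1 q := by
    refine ⟨List.prefix_append _ _, fun i hi h => ?_⟩
    by_cases hiR : i < R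
    · obtain ⟨a, ha, _, rfl⟩ := (hget i hi hiR).1 h
      exact ⟨a, ha, t0, rfl⟩
    · rw [List.getD_eq_default _ _ (by rw [hlen]; omega)] at h
      exact absurd h (by simp)
  refine ⟨q, h1.trans hext, ?_, ?_, ?_, ?_⟩
  · rw [hlen]; simp only [R]; omega
  · rw [hlen]; simp only [R]; omega
  · intro e he L hL q' hq' hh
    exact holds_mono hext.1 (h2 (e, L) ⟨he, hL⟩ q' (hext.trans hq') hh)
  · intro i hi hiE
    refine ⟨t0, by simp only [t0]; omega, ?_⟩
    have hb : pr i t0 < R := by
      have h3 : pr i t0 ≤ (p.length + t0) * (p.length + t0) + p.length := by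
        unfold pr
        have : i + t0 ≤ p.length + t0 := by omega
        have := Nat.mul_le_mul this this
        omega
      simp only [R]
      simp only [t0] at h3 ⊢
      omega
    have ha : l ≤ pr i t0 := le_trans (by simp only [t0]; omega) (le_pr_right i t0)
    exact (hget _ ha hb).2 ⟨i, hiE, hi, rfl⟩

/-- one step -/
noncomputable def stepf (E : ℕ) (p : List Bool) : List Bool := (exists_step E p).choose
theorem stepf_spec (E : ℕ) (p : List Bool) : IsStep E p (stepf E p) := (exists_step E p).choose_spec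

/-- the `k`-th condition -/
noncomputable def qq (d : ℕ) : ℕ → List Bool
  | 0 => List.replicate (d + 2) false
  | k + 1 => stepf k (qq d k)

theorem qq_succ (d k : ℕ) : IsStep k (qq d k) (qq d (k + 1)) := stepf_spec _ _

theorem qq_ext (d : ℕ) {k l : ℕ} (h : k ≤ l) : Ext k (qq d k) (qq d l) := by
  induction l, h using Nat.le_induction with
  | base => exact Ext.refl _ _
  | succ l hl ih => exact ih.trans ((qq_succ d l).ext.mono hl)

/-- lengths of the conditions -/
noncomputable def gg (d k : ℕ) : ℕ := (qq d k).length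

theorem gg_zero (d : ℕ) : gg d 0 = d + 2 := by
  simp [gg, qq]

theorem gg_strictMono (d : ℕ) : StrictMono (gg d) := strictMono_nat_of_lt_succ fun k => (qq_succ d k).longer

theorem lt_gg' (d k : ℕ) : d + k + 1 < gg d k := by
  induction k with
  | zero => rw [gg_zero]; omega
  | succ k ih =>
    have h3 : gg d k < gg d (k + 1) := gg_strictMono d (Nat.lt_succ_self k)
    omega

theorem lt_gg (d k : ℕ) : k < gg d k := by
  have := lt_gg' d k
  omega

/-- the initial segment of length `m` of the generic -/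
noncomputable def Zr (d m : ℕ) : List Bool := (qq d m).take m

theorem Zr_eq (d : ℕ) {m k : ℕ} (h : m ≤ gg d k) : Zr d m = (qq d k).take m := by
  rcases le_total m k with hk | hk
  · rw [Zr, take_prefix (qq_ext d hk).1 (lt_gg d m).le]
  · rw [Zr, take_prefix (qq_ext d hk).1 h]

theorem Zr_length (d m : ℕ) : (Zr d m).length = m := by
  rw [Zr, List.length_take]
  exact min_eq_left (lt_gg d m).le

theorem Zr_take (d : ℕ) {m m' : ℕ} (h : m ≤ m') : (Zr d m').take m = Zr d m := by
  rw [Zr, List.take_take, min_eq_left h]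
  exact (Zr_eq d (h.trans (lt_gg d m').le)).symm

end Pool.Agent.Helper317.TP
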