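import Pool.Agent.Helper317.SOA

/-!
Trees of finite sequences, paths, definability and the structure obtained by adjoining a function.
-/

namespace Pool.Agent.Helper317.SOA

/-- The graph of `f` restricted to the numbers below `s`. -/
def Model.Graph (M : Model) (f : M.Num → M.Num) (s : M.Num) : Set M.Num :=
  {i | ∃ x, M.lt x s ∧ i = M.pair x (f x)}

/-- `c` is the code of the `M`-finite sequence of length `s` whose entries are given by `f`: the
code of the finite set of pairs `(x, f x)` with `x < s`. -/
def Model.SeqCode (M : Model) (c s : M.Num) (f : M.Num → M.Num) : Prop := M.Code c (M.Graph f s)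

/-- `T` is a tree: a set of (codes of) `M`-finite sequences closed under initial segments. -/
def Model.IsTree (M : Model) (T : Set M.Num) : Prop :=
  (∀ c ∈ T, ∃ s f, M.SeqCode c s f) ∧
    ∀ c ∈ T, ∀ s f, M.SeqCode c s f → ∀ s', M.lt s' s → ∀ c', M.SeqCode c' s' f → c' ∈ T

/-- `h` is a path of `T`: every initial segment of `h` is an `M`-finite sequence in `T`. The
function `h` need not belong to the second-order part. -/
def Model.IsPath (M : Model) (T : Set M.Num) (h : M.Num → M.Num) : Prop :=
  ∀ s, ∃ c ∈ T, M.SeqCode c s h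

/-- The formula is a formula of first-order arithmetic: no set variables occur. -/
def Fm.NoSet : Fm → Prop
  | .eq _ _ => True
  | .lt _ _ => True
  | .mem _ _ => False
  | .neg φ => φ.NoSet
  | .and φ ψ => φ.NoSet ∧ ψ.NoSet
  | .all _ φ => φ.NoSet
  | .allS _ _ => False

/-- `T` is defined by a `Π⁰₁` formula of first-order arithmetic without any parameters (the
values of the variables other than `0` and of the set variables play no role). -/
def Model.Pi1Set (M : Model) (T : Set M.Num) : Prop :=
  ∃ φ, IsPi 1 φ ∧ φ.NoSet ∧ ∀ (v : ℕ → M.Num) (V : ℕ → Set M.Num) (c : M.Num),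
    c ∈ T ↔ Sat M (Function.update v 0 c) V φ

/-- `h` is first-order definable: its graph is defined by a formula of first-order arithmetic
with parameters from `M`. -/
def Model.ArithDef (M : Model) (h : M.Num → M.Num) : Prop :=
  ∃ φ : Fm, φ.NoSet ∧ ∃ (v : ℕ → M.Num) (V : ℕ → Set M.Num),
    ∀ a b, h a = b ↔ Sat M (Function.update (Function.update v 0 a) 1 b) V φ

/-- The structure `M[g]`: the first-order part is that of `M`, and the second-order part consists
of the sets that are `Δ⁰₁`-definable from the graph of `g`, sets of `M` and numbers. -/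
def Model.adjoin (M : Model) (g : M.Num → M.Num) : Model where
  Num := M.Num
  zero := M.zero
  one := M.one
  add := M.add
  mul := M.mul
  lt := M.lt
  sets := {X | ∃ φ ψ, IsSigma 1 φ ∧ IsPi 1 ψ ∧ ∃ (v : ℕ → M.Num) (V : ℕ → Set M.Num),
    (∀ j, V j ∈ M.sets ∨ V j = {i | ∃ x, i = M.pair x (g x)}) ∧
    ∀ a, (a ∈ X ↔ Sat M (Function.update v 0 a) V φ) ∧
      (a ∈ X ↔ Sat M (Function.update v 0 a) V ψ)}

end Pool.Agent.Helper317.SOA
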