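import Pool.Agent.Helper317.TP.Constr

/-!
The two-sorted structure: a cut in an ultrapower of the standard numbers.
-/

namespace Pool.Agent.Helper317.TP

open Function Filter SOA

/-- the ultrafilter -/
noncomputable abbrev UU : Ultrafilter ℕ := hyperfilter ℕ

/-- eventually along the ultrafilter -/
def Ev (p : ℕ → Prop) : Prop := ∀ᶠ n in (UU : Filter ℕ), p n

theorem Ev.mp {p q : ℕ → Prop} (h : Ev p) (hq : ∀ n, p n → q n) : Ev q :=
  Filter.Eventually.mono h hq

theorem Ev.and {p q : ℕ → Prop} (h : Ev p) (hq : Ev q) : Ev fun n => p n ∧ q n :=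
  Filter.Eventually.and h hq

theorem Ev.mp2 {p q r : ℕ → Prop} (h : Ev p) (hq : Ev q) (hr : ∀ n, p n → q n → r n) : Ev r :=
  (h.and hq).mp fun n hn => hr n hn.1 hn.2

theorem Ev.congr {p q : ℕ → Prop} (h : Ev fun n => p n ↔ q n) : Ev p ↔ Ev q :=
  Filter.eventually_congr h

theorem ev_of_forall {p : ℕ → Prop} (h : ∀ n, p n) : Ev p := Filter.Eventually.of_forall h

theorem ev_not {p : ℕ → Prop} : (Ev fun n => ¬ p n) ↔ ¬ Ev p := Ultrafilter.eventually_not

theorem ev_and {p q : ℕ → Prop} : (Ev fun n => p n ∧ q n) ↔ Ev p ∧ Ev q := Filter.eventually_and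

theorem ev_or {p q : ℕ → Prop} : (Ev fun n => p n ∨ q n) ↔ Ev p ∨ Ev q := Ultrafilter.eventually_or

theorem ev_ge (k : ℕ) : Ev fun n => k ≤ n :=
  Nat.hyperfilter_le_atTop (Filter.eventually_ge_atTop k)

theorem ev_const {p : Prop} : (Ev fun _ => p) ↔ p := by
  constructor
  · intro h
    by_contra hp
    have h' : Ev fun _ => ¬ p := ev_of_forall fun _ => hp
    exact ev_not.1 h' h
  · exact fun h => ev_of_forall fun _ => h

theorem ev_forall_lt {p : ℕ → ℕ → Prop} (N : ℕ) (h : ∀ i < N, Ev (p i)) : Ev fun n => ∀ i < N, p i n := by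
  induction N with
  | zero => exact ev_of_forall fun n i hi => absurd hi (Nat.not_lt_zero _)
  | succ N ih =>
    refine (ih fun i hi => h i (hi.trans (Nat.lt_succ_self _))).mp2 (h N (Nat.lt_succ_self _)) ?_
    intro n h1 h2 i hi
    rcases Nat.lt_succ_iff_lt_or_eq.1 hi with h3 | rfl
    · exact h1 i h3
    · exact h2

/-- countable saturation -/
theorem saturation (P : ℕ → ℕ → ℕ → Prop) (hmono : ∀ m n y, P (m + 1) n y → P m n y)
    (h : ∀ m, Ev fun n => ∃ y, P m n y) : ∃ y : ℕ → ℕ, ∀ m, Ev fun n => P m n (y n) := by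
  classical
  have hmono' : ∀ m m' n y, m ≤ m' → P m' n y → P m n y := by
    intro m m' n y hm
    induction m', hm using Nat.le_induction with
    | base => exact id
    | succ l _ ih => exact fun h => ih (hmono _ _ _ h)
  let S : ℕ → Finset ℕ := fun n => (Finset.range (n + 1)).filter fun m => ∃ y, P m n y
  have hy : ∀ n, ∃ y, ∀ m ∈ S n, P m n y := by
    intro n
    by_cases hS : (S n).Nonempty
    · have hmem := (S n).max'_mem hS
      obtain ⟨y, hy⟩ := (Finset.mem_filter.1 hmem).2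
      exact ⟨y, fun m hm => hmono' _ _ _ _ ((S n).le_max' m hm) hy⟩
    · exact ⟨0, fun m hm => absurd ⟨m, hm⟩ hS⟩
  choose y hy using hy
  refine ⟨y, fun m => (h m).mp2 (ev_ge m) fun n h1 h2 => hy n m ?_⟩
  exact Finset.mem_filter.2 ⟨Finset.mem_range.2 (Nat.lt_succ_of_le h2), h1⟩

/-- the number domain -/
def Car : Type := {x : Filter.Germ (UU : Filter ℕ) ℕ // ∃ k : ℕ, x < ((fun n => gg n k : ℕ → ℕ) : Filter.Germ (UU : Filter ℕ) ℕ)}

/-- a representative -/
noncomputable def rep (x : Car) : ℕ → ℕ := Quotient.out x.1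

theorem rep_coe (x : Car) : ((rep x : ℕ → ℕ) : Filter.Germ (UU : Filter ℕ) ℕ) = x.1 := Quotient.out_eq x.1

/-- the element given by a sequence -/
noncomputable def mk (f : ℕ → ℕ) (h : ∃ k, Ev fun n => f n < gg n k) : Car :=
  ⟨(f : Filter.Germ (UU : Filter ℕ) ℕ), by
    obtain ⟨k, hk⟩ := h
    exact ⟨k, Filter.Germ.coe_lt.2 hk⟩⟩

theorem rep_mk {f : ℕ → ℕ} (h : ∃ k, Ev fun n => f n < gg n k) : Ev fun n => rep (mk f h) n = f n := by
  have h1 := rep_coe (mk f h)
  exact Filter.Germ.coe_eq.1 h1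

theorem rep_bound (x : Car) : ∃ k, Ev fun n => rep x n < gg n k := by
  obtain ⟨k, hk⟩ := x.2
  rw [← rep_coe x] at hk
  exact ⟨k, Filter.Germ.coe_lt.1 hk⟩

theorem car_ext {x y : Car} : x = y ↔ Ev fun n => rep x n = rep y n := by
  constructor
  · rintro rfl; exact ev_of_forall fun _ => rfl
  · intro h
    apply Subtype.ext
    rw [← rep_coe x, ← rep_coe y]
    exact Filter.Germ.coe_eq.2 h

theorem bound_mono {f : ℕ → ℕ} {k l : ℕ} (h : k ≤ l) (hf : Ev fun n => f n < gg n k) :
    Ev fun n => f n < gg n l :=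
  hf.mp fun n hn => hn.trans_le ((gg_strictMono n).monotone h)

/-- finitely many elements have a common bound -/
theorem common_bound (v : ℕ → Car) (N : ℕ) : ∃ k, ∀ i < N, Ev fun n => rep (v i) n < gg n k := by
  induction N with
  | zero => exact ⟨0, fun i hi => absurd hi (Nat.not_lt_zero _)⟩
  | succ N ih =>
    obtain ⟨k, hk⟩ := ih
    obtain ⟨l, hl⟩ := rep_bound (v N)
    refine ⟨max k l, fun i hi => ?_⟩
    rcases Nat.lt_succ_iff_lt_or_eq.1 hi with h3 | rfl
    · exact bound_mono (le_max_left _ _) (hk i h3)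
    · exact bound_mono (le_max_right _ _) hl

theorem gr_lt (n k : ℕ) {a : ℕ} (h : a ≤ Gr (gg n k)) : a < gg n (k + 1) :=
  lt_of_le_of_lt h (qq_succ n k).growth

theorem bound_op2 {f g : ℕ → ℕ} (F : ℕ → ℕ → ℕ) (hF : ∀ m a b, a ≤ m → b ≤ m → F a b ≤ Gr m)
    (hf : ∃ k, Ev fun n => f n < gg n k) (hg : ∃ k, Ev fun n => g n < gg n k) :
    ∃ k, Ev fun n => F (f n) (g n) < gg n k := by
  obtain ⟨k, hk⟩ := hf
  obtain ⟨l, hl⟩ := hg
  refine ⟨max k l + 1, (bound_mono (le_max_left k l) hk).mp2 (bound_mono (le_max_right k l) hl) ?_⟩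
  intro n h1 h2
  exact gr_lt n _ (hF _ _ _ h1.le h2.le)

theorem Gr_add (m a b : ℕ) (ha : a ≤ m) (hb : b ≤ m) : a + b ≤ Gr m := by
  have := (Gr_spec m).1 a b ha hb
  unfold pr at this
  nlinarith [Nat.le_mul_self (a + b)]

theorem bound_const (c : ℕ) : ∃ k, Ev fun n => (fun _ => c) n < gg n k :=
  ⟨0, (ev_ge (c + 1)).mp fun n hn => by
    rw [gg_zero]
    simp only; omega⟩

/-- constants -/
noncomputable def cst (c : ℕ) : Car := mk (fun _ => c) (bound_const c)

theorem rep_cst (c : ℕ) : Ev fun n => rep (cst c) n = c := rep_mk _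

noncomputable def cadd (x y : Car) : Car :=
  mk (fun n => rep x n + rep y n) (bound_op2 (· + ·) Gr_add (rep_bound x) (rep_bound y))

noncomputable def cmul (x y : Car) : Car :=
  mk (fun n => rep x n * rep y n) (bound_op2 (· * ·) (fun m => (Gr_spec m).2.1) (rep_bound x) (rep_bound y))

def clt (x y : Car) : Prop := Ev fun n => rep x n < rep y n

theorem rep_cadd (x y : Car) : Ev fun n => rep (cadd x y) n = rep x n + rep y n := rep_mk _
theorem rep_cmul (x y : Car) : Ev fun n => rep (cmul x y) n = rep x n * rep y n := rep_mk _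

/-- an internal number below a member of the cut is in the cut -/
theorem bound_of_lt {f : ℕ → ℕ} {x : Car} (h : Ev fun n => f n ≤ rep x n) :
    ∃ k, Ev fun n => f n < gg n k := by
  obtain ⟨k, hk⟩ := rep_bound x
  exact ⟨k, h.mp2 hk fun n h1 h2 => lt_of_le_of_lt h1 h2⟩

/-- the finite approximation to the generic given by `m` -/
noncomputable def zi (n m : ℕ) : ℕ := cd (Zr n m)

/-- the relation defined from the generic by `F` (witness in the cut) -/
def SigF (F : Fm) (x w : Car) : Prop :=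
  ∃ m : Car, Ev fun n => satN (a3 (zi n (rep m n)) (rep x n) (rep w n)) F

/-- `V` and its complement are both of this form -/
def Desc (F : Fm × Fm) (w : Car) (V : Set Car) : Prop :=
  ∀ x, (x ∈ V ↔ SigF F.1 x w) ∧ (x ∉ V ↔ SigF F.2 x w)

/-- the structure -/
noncomputable abbrev MM : Model where
  Num := Car
  zero := cst 0
  one := cst 1
  add := cadd
  mul := cmul
  lt := clt
  sets := {V | ∃ F w, Desc F w V}

/-- combined assignment: `z` at `0`, `v i` at `3i+1`, `w i` at `3i+2` -/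
def asg (z : ℕ) (v w : ℕ → ℕ) : ℕ → ℕ := fun p =>
  if p = 0 then z else if p % 3 = 1 then v (p / 3) else if p % 3 = 2 then w (p / 3) else 0

theorem asg_zero (z : ℕ) (v w : ℕ → ℕ) : asg z v w 0 = z := rfl
theorem asg_one (z : ℕ) (v w : ℕ → ℕ) (i : ℕ) : asg z v w (3 * i + 1) = v i := by
  unfold asg
  rw [if_neg (by omega), if_pos (by omega)]; congr 1; omega
theorem asg_two (z : ℕ) (v w : ℕ → ℕ) (i : ℕ) : asg z v w (3 * i + 2) = w i := by
  unfold asg
  rw [if_neg (by omega), if_neg (by omega), if_pos (by omega)]; congr 1; omega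
theorem asg_three (z : ℕ) (v w : ℕ → ℕ) (i : ℕ) : asg z v w (3 * i + 3) = 0 := by
  unfold asg
  rw [if_neg (by omega), if_neg (by omega), if_neg (by omega)]

theorem pos_cases (p : ℕ) : p = 0 ∨ (∃ i, p = 3 * i + 1) ∨ (∃ i, p = 3 * i + 2) ∨ (∃ i, p = 3 * i + 3) := by
  rcases Nat.eq_zero_or_pos p with h | h
  · exact Or.inl h
  · right
    have : p % 3 = 0 ∨ p % 3 = 1 ∨ p % 3 = 2 := by omega
    rcases this with h | h | h
    · exact Or.inr (Or.inr ⟨p / 3 - 1, by omega⟩)
    · exact Or.inl ⟨p / 3, by omega⟩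
    · exact Or.inr (Or.inl ⟨p / 3, by omega⟩)

theorem update_asg_zero (z z' : ℕ) (v w : ℕ → ℕ) : update (asg z v w) 0 z' = asg z' v w := by
  funext p
  by_cases h : p = 0
  · subst h; simp [asg]
  · rw [update_of_ne h]; simp [asg, h]

theorem update_asg_one (z : ℕ) (v w : ℕ → ℕ) (i a : ℕ) :
    update (asg z v w) (3 * i + 1) a = asg z (update v i a) w := by
  funext p
  rcases pos_cases p with rfl | ⟨j, rfl⟩ | ⟨j, rfl⟩ | ⟨j, rfl⟩
  · rw [update_of_ne (by omega)]; rfl
  · by_cases h : j = i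
    · subst h; rw [update_self, asg_one, update_self]
    · rw [update_of_ne (by omega), asg_one, asg_one, update_of_ne h]
  · rw [update_of_ne (by omega), asg_two, asg_two]
  · rw [update_of_ne (by omega), asg_three, asg_three]

theorem update_asg_two (z : ℕ) (v w : ℕ → ℕ) (i a : ℕ) :
    update (asg z v w) (3 * i + 2) a = asg z v (update w i a) := by
  funext p
  rcases pos_cases p with rfl | ⟨j, rfl⟩ | ⟨j, rfl⟩ | ⟨j, rfl⟩
  · rw [update_of_ne (by omega)]; rfl
  · rw [update_of_ne (by omega), asg_one, asg_one]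
  · by_cases h : j = i
    · subst h; rw [update_self, asg_two, update_self]
    · rw [update_of_ne (by omega), asg_two, asg_two, update_of_ne h]
  · rw [update_of_ne (by omega), asg_three, asg_three]

/-- the `n`-th coordinate of an assignment -/
noncomputable def rv (v : ℕ → Car) (n : ℕ) : ℕ → ℕ := fun i => rep (v i) n

theorem rv_update (v : ℕ → Car) (i : ℕ) (a : Car) (n : ℕ) : rv (update v i a) n = update (rv v n) i (rep a n) := by
  funext j
  by_cases h : j = i
  · subst h; simp [rv]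
  · simp [rv, update_of_ne h]

/-- relation on assignments defined from the generic by `Θ` -/
def Sg (Θ : Fm) (v w : ℕ → Car) : Prop :=
  ∃ m : Car, Ev fun n => satN (asg (zi n (rep m n)) (rv v n) (rv w n)) Θ

/-- coordinatewise witnessed truth at a stage -/
def St (n k : ℕ) (Θ : Fm) (a b : ℕ → ℕ) : Prop := ∃ m ≤ gg n k, satN (asg (zi n m) a b) Θ

theorem Sg_of_St {Θ : Fm} {v w : ℕ → Car} {k : ℕ} (h : Ev fun n => St n k Θ (rv v n) (rv w n)) :
    Sg Θ v w := by
  classical
  let f : ℕ → ℕ := fun n => if h : St n k Θ (rv v n) (rv w n) then h.choose else 0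
  have hf : Ev fun n => f n ≤ gg n k ∧ satN (asg (zi n (f n)) (rv v n) (rv w n)) Θ := by
    refine h.mp fun n hn => ?_
    simp only [f, dif_pos hn]
    exact hn.choose_spec
  have hb : ∃ k, Ev fun n => f n < gg n k :=
    ⟨k + 1, hf.mp fun n hn => lt_of_le_of_lt hn.1 (gg_strictMono n (Nat.lt_succ_self k))⟩
  refine ⟨mk f hb, (rep_mk hb).mp2 hf fun n h1 h2 => ?_⟩
  rw [h1]; exact h2.2

/-- all relevant entries are below stage `k` -/
def Small (N k : ℕ) (v : ℕ → Car) : Prop := ∀ i < N, Ev fun n => rep (v i) n < gg n k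

theorem St_of_Sg {Θ : Fm} {v w : ℕ → Car} {k : ℕ} (hv : Small Θ.bd k v) (hw : Small Θ.bd k w)
    (h : Sg Θ v w) : Ev fun n => St n (k + 1) Θ (rv v n) (rv w n) := by
  obtain ⟨m, hm⟩ := h
  obtain ⟨l, hl⟩ := rep_bound m
  obtain ⟨e, he⟩ := en_surj Θ
  have hl' := bound_mono (le_max_left l (k + 1)) hl
  refine ((hm.and hl').and ((ev_forall_lt _ hv).and (ev_forall_lt _ hw))).mp2 (ev_ge (e + Θ.bd)) ?_
  rintro n ⟨⟨h1, h2⟩, h3, h4⟩ h5
  set l' := max l (k + 1) with hl'def
  have hpw : 0 < 2 ^ n := by positivity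
  have hgn : n ≤ gg n k := by
    have h6 := (gg_strictMono n).monotone (Nat.zero_le k)
    rw [gg_zero] at h6
    omega
  have heg : e < (qq n k).length := by
    have h6 := (gg_strictMono n).monotone (Nat.zero_le k)
    rw [gg_zero] at h6
    change e < gg n k
    omega
  let L : List ℕ := (List.range Θ.bd).map fun p => asg 0 (rv v n) (rv w n) (p + 1)
  have hLpos : ∀ p < Θ.bd, asg 0 (rv v n) (rv w n) p < gg n k := by
    intro p hp
    have hpos : 0 < gg n k := lt_of_le_of_lt (Nat.zero_le _) (lt_gg n k)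
    rcases pos_cases p with rfl | ⟨j, rfl⟩ | ⟨j, rfl⟩ | ⟨j, rfl⟩
    · exact hpos
    · rw [asg_one]; exact h3 j (by omega)
    · rw [asg_two]; exact h4 j (by omega)
    · rw [asg_three]; exact hpos
  let L' : List ℕ := (List.range (Θ.bd - 1)).map fun p => asg 0 (rv v n) (rv w n) (p + 1)
  have hL : L' ∈ smallLists (qq n k).length := by
    refine ⟨?_, ?_⟩
    · simp only [L', List.length_map, List.length_range]
      change _ ≤ gg n k
      omega
    · intro a ha
      simp only [L', List.mem_map, List.mem_range] at ha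
      obtain ⟨p, hp, rfl⟩ := ha
      exact hLpos (p + 1) (by omega)
  have hagree : ∀ z, ∀ p < Θ.bd, lasg z L' p = asg z (rv v n) (rv w n) p := by
    intro z p hp
    cases p with
    | zero => rfl
    | succ p =>
      simp only [lasg, L', List.getD_eq_getElem?_getD, List.getElem?_map]
      rw [List.getElem?_range (by omega)]
      simp [asg]
  have hholds : holds (en e) L' (qq n l') := by
    refine ⟨rep m n, h2.le, ?_⟩
    rw [he, satN_congr Θ (hagree _)]
    rw [← Zr_eq n h2.le]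
    exact h1
  have hext : Ext k (qq n (k + 1)) (qq n l') :=
    (qq_ext n (le_max_right l (k + 1))).mono (Nat.le_succ k)
  obtain ⟨m', hm', hs⟩ := (qq_succ n k).decided e heg L' hL _ hext hholds
  refine ⟨m', hm', ?_⟩
  rw [he, satN_congr Θ (hagree _), ← Zr_eq n hm'] at hs
  exact hs

theorem Sg_iff_St {Θ : Fm} {v w : ℕ → Car} {k : ℕ} (hv : Small Θ.bd k v) (hw : Small Θ.bd k w) :
    Sg Θ v w ↔ Ev fun n => St n (k + 1) Θ (rv v n) (rv w n) :=
  ⟨St_of_Sg hv hw, Sg_of_St⟩

end Pool.Agent.Helper317.TP
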