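import Pool.Agent.Helper317.TP.Ax
import Pool.Agent.Helper317.TP.Defs

/-!
Failure of Sigma-2 induction, codes of internal finite sets.
-/

namespace Pool.Agent.Helper317.TP

open Function Filter SOA

/-- bits of the generic -/
noncomputable def zb (n i : ℕ) : Bool := (qq n i).getD i false

theorem zb_eq {n i k : ℕ} (h : i < gg n k) : (qq n k).getD i false = zb n i := by
  rcases le_total i k with hk | hk
  · exact (prefix_getD (qq_ext n hk).1 (lt_gg n i)).symm
  · exact prefix_getD (qq_ext n hk).1 h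

theorem Zr_getD {n m i : ℕ} (h : i < m) : (Zr n m).getD i false = zb n i := by
  rw [← zb_eq (h.trans (lt_gg n m)), Zr]
  rw [List.getD_eq_getElem?_getD, List.getD_eq_getElem?_getD, List.getElem?_take_of_lt h]

theorem rep_pair (a b : Car) : Ev fun n => rep (MM.pair a b) n = pr (rep a n) (rep b n) :=
  (rep_val (pairT (.var 0) (.var 1)) (fun i => if i = 0 then a else b)).mp fun _ hn => hn

theorem pair_inj {a b c d : Car} (h : MM.pair a b = MM.pair c d) : a = c ∧ b = d := by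
  have : Ev fun n => rep a n = rep c n ∧ rep b n = rep d n := by
    refine (((car_ext.1 h).and (rep_pair a b)).mp2 (rep_pair c d)) ?_
    rintro n ⟨h1, h2⟩ h3
    rw [h2, h3] at h1
    exact pr_inj h1
  exact ⟨car_ext.2 (ev_and.1 this).1, car_ext.2 (ev_and.1 this).2⟩

def Zset : Set Car := {i | Ev fun n => zb n (rep i n) = true}

theorem Zset_mem : Zset ∈ MM.sets := by
  refine ⟨(.mem (pairT (.var 1) (.var 0)) (Nat.pair 2 0),
    .and (.mem (pairT (.add (.var 1) .one) (.var 0)) (Nat.pair 0 0))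
      (.neg (.mem (pairT (.var 1) (.var 0)) (Nat.pair 2 0)))), cst 0, fun x => ?_⟩
  have hbit : ∀ n m y w, satN (a3 (zi n m) y w) (.mem (pairT (.var 1) (.var 0)) (Nat.pair 2 0)) ↔
      (Zr n m).getD y false = true := by
    intro n m y w
    rw [satN_mem, val_pairT_NM]
    constructor
    · rintro ⟨y', z', h1, h2⟩
      obtain ⟨h3, h4⟩ := pr_inj h1
      have h3' : y = y' := h3
      have h4' : zi n m = z' := h4
      rw [← h3', ← h4', zi, dc_cd] at h2
      exact h2
    · intro h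
      exact ⟨y, zi n m, rfl, by rw [zi, dc_cd]; exact h⟩
  have hlen : ∀ n m y w, satN (a3 (zi n m) y w) (.mem (pairT (.add (.var 1) .one) (.var 0)) (Nat.pair 0 0)) ↔
      y + 1 ≤ m := by
    intro n m y w
    rw [satN_mem, val_pairT_NM]
    constructor
    · rintro ⟨y', z', h1, h2⟩
      obtain ⟨h3, h4⟩ := pr_inj h1
      have h3' : y + 1 = y' := h3
      have h4' : zi n m = z' := h4
      rw [← h3', ← h4', zi, dc_cd, Zr_length] at h2
      exact h2
    · intro h
      exact ⟨y + 1, zi n m, rfl, by rw [zi, dc_cd, Zr_length]; exact h⟩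
  have hlt : ∀ n m y, (Zr n m).getD y false = true → y < m := by
    intro n m y h
    by_contra hn
    rw [List.getD_eq_default _ _ (by rw [Zr_length]; omega)] at h
    exact absurd h (by simp)
  obtain ⟨k, hk⟩ := rep_bound x
  constructor
  · constructor
    · intro h
      refine ⟨gk k, (Ev.and h hk).mp2 (rep_gk k) ?_⟩
      rintro n ⟨h1, h2⟩ h3
      rw [h3, hbit, Zr_getD h2]; exact h1
    · rintro ⟨m, hm⟩
      refine Ev.mp hm fun n hn => ?_
      rw [hbit] at hn
      rw [← Zr_getD (hlt _ _ _ hn)]; exact hn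
  · rw [show (x ∉ Zset ↔ _) from Iff.rfl, show (x ∈ Zset) = (Ev fun n => zb n (rep x n) = true) from rfl,
      ← ev_not]
    constructor
    · intro h
      refine ⟨gk k, (Ev.and h hk).mp2 (rep_gk k) ?_⟩
      rintro n ⟨h1, h2⟩ h3
      rw [h3, satN_and, satN_neg, hbit, hlen, Zr_getD h2]; exact ⟨h2, h1⟩
    · rintro ⟨m, hm⟩
      refine Ev.mp hm fun n hn => ?_
      rw [satN_and, satN_neg, hbit, hlen] at hn
      rw [← Zr_getD hn.1]; exact hn.2

/-- the Pi-2 set -/
noncomputable def XX : Set Car := {i | ∀ t0, ∃ t, clt t0 t ∧ MM.pair i t ∈ Zset}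

theorem XX_stage {i : Car} (h : i ∈ XX) (k : ℕ) : Ev fun n => k ≤ rep i n := by
  obtain ⟨t, ht, hz⟩ := h (gk k)
  obtain ⟨l, hl⟩ := rep_bound (MM.pair i t)
  have hl' := bound_mono (le_max_left l k) hl
  refine ((Ev.and ht (rep_gk k)).and (Ev.and hz hl')).mp2 (rep_pair i t) ?_
  rintro n ⟨⟨h1, h2⟩, h3, h4⟩ h5
  rw [h2] at h1
  rw [h5] at h3 h4
  rw [← zb_eq h4] at h3
  have hge : (qq n k).length ≤ pr (rep i n) (rep t n) :=
    h1.le.trans (le_pr_right _ _)
  obtain ⟨a, ha, t', ht'⟩ := (qq_ext n (le_max_right l k)).2 _ hge h3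
  rw [(pr_inj ht').1]; exact ha

theorem XX_of_stages {i : Car} (h : ∀ k, Ev fun n => k ≤ rep i n) : i ∈ XX := by
  intro t0
  obtain ⟨k1, hk1⟩ := rep_bound i
  obtain ⟨k2, hk2⟩ := rep_bound t0
  set k := max k1 k2
  have hk1' := bound_mono (le_max_left k1 k2) hk1
  have hk2' := bound_mono (le_max_right k1 k2) hk2
  obtain ⟨f, hf⟩ := choose_seq (P := fun n t => gg n k < t ∧ (qq n (k + 1)).getD (pr (rep i n) t) false = true)
    ((h k).mp2 hk1' fun n h1 h2 => (qq_succ n k).hit _ h2 h1)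
  have hlt : Ev fun n => pr (rep i n) (f n) < gg n (k + 1) := by
    refine hf.mp fun n hn => ?_
    by_contra hcon
    rw [List.getD_eq_default _ _ (not_lt.1 hcon)] at hn
    exact absurd hn.2 (by simp)
  have hfb : ∃ k, Ev fun n => f n < gg n k :=
    ⟨k + 1, hlt.mp fun n hn => lt_of_le_of_lt (le_pr_right _ _) hn⟩
  refine ⟨mk f hfb, ?_, ?_⟩
  · refine (hf.and hk2').mp2 (rep_mk hfb) ?_
    rintro n ⟨h1, h2⟩ h3
    rw [h3]; exact h2.trans h1.1
  · refine ((hf.and hlt).and (rep_mk hfb)).mp2 (rep_pair i (mk f hfb)) ?_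
    rintro n ⟨⟨h1, h2⟩, h3⟩ h4
    rw [h4, h3, ← zb_eq h2]; exact h1.2

theorem XX_iff (a : Car) : a ∈ XX ↔ ∀ k : ℕ, Ev fun n => k ≤ rep a n :=
  ⟨fun h k => XX_stage h k, XX_of_stages⟩

theorem MM_not_ISigma2 : ¬ ISigma 2 MM := by
  intro hI
  let χ : Fm := .ex 1 (.all 2 (.neg (.and (.lt (.var 1) (.var 2))
    (.mem (pairT (.var 0) (.var 2)) 0))))
  have hχ : IsSigma 2 χ := ⟨1, _, rfl, 2, _, rfl, .neg (.and (.lt _ _) (.mem _ _))⟩
  have key : ∀ a : Car, Sat MM (update (fun _ => cst 0) 0 a) (fun _ => Zset) χ ↔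
      a ∉ XX := by
    intro a
    simp only [χ]
    rw [sat_ex]
    rw [show (a ∉ XX ↔ ¬ ∀ t0, ∃ t, clt t0 t ∧ MM.pair a t ∈ Zset) from Iff.rfl]
    rw [not_forall]
    refine exists_congr fun t0 => ?_
    rw [sat_all, not_exists]
    refine forall_congr' fun t => ?_
    rw [sat_neg, sat_and, sat_lt, sat_mem]
    simp only [Tm.val, pairT]
    rw [update_of_ne (by omega), update_self, update_self, update_of_ne (by omega),
      update_of_ne (by omega), update_self]
    exact Iff.rfl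
  have h := hI χ hχ 0 (fun _ => cst 0) (fun _ => Zset) (fun _ => Zset_mem) (by
    rw [key, XX_iff]
    intro h
    have := (h 1).mp2 (rep_cst 0) (r := fun _ => False) fun n h1 h2 => by
      have h2' : rep MM.zero n = 0 := h2
      omega
    exact ev_const.1 this) (by
    intro a ha
    rw [key, XX_iff] at ha ⊢
    intro h
    apply ha
    intro k
    refine ((h (k + 1)).and (rep_cadd a (cst 1))).mp2 (rep_cst 1) ?_
    rintro n ⟨h1, h2⟩ h3
    have h2' : rep (MM.add a MM.one) n = rep a n + rep (cst 1) n := h2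
    rw [h2', h3] at h1; omega)
  have hb : ∃ k, Ev fun n => (fun n => n) n < gg n k :=
    ⟨0, ev_of_forall fun n => by rw [gg_zero]; simp only; omega⟩
  have := h (mk (fun n => n) hb)
  rw [key, XX_iff] at this
  apply this
  intro k
  exact (rep_mk hb).mp2 (ev_ge k) fun n h1 h2 => by rw [h1]; exact h2

/-! codes -/

theorem NM_code_unique {c c' : ℕ} {A : Set ℕ} (h : NM.Code c A) (h' : NM.Code c' A) : c = c' := by
  have h1 := h.2 c' h'.1
  have h2 := h'.2 c h.1
  have h1' : ¬ c' < c := h1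
  have h2' : ¬ c < c' := h2
  omega

theorem MM_dvd (a b : Car) : MM.Dvd a b ↔ Ev fun n => NM.Dvd (rep a n) (rep b n) := by
  constructor
  · rintro ⟨c, hc⟩
    refine ((car_ext.1 hc).mp2 (rep_cmul a c)) fun n h1 h2 => ⟨rep c n, ?_⟩
    change rep a n * rep c n = rep b n
    rw [← h2]; exact h1
  · intro h
    have hb : ∃ k, Ev fun n => rep b n / rep a n < gg n k :=
      bound_of_lt (x := b) (ev_of_forall fun n => Nat.div_le_self _ _)
    refine ⟨mk _ hb, ?_⟩
    change cmul a (mk _ hb) = b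
    rw [car_ext]
    refine (Ev.and h (rep_cmul a (mk _ hb))).mp2 (rep_mk hb) ?_
    rintro n ⟨⟨c, hc⟩, h2⟩ h3
    have hc' : rep a n * c = rep b n := hc
    rw [h2, h3]
    exact Nat.mul_div_cancel' ⟨c, hc'.symm⟩

/-- internal sets -/
def IA (A : ℕ → Set ℕ) : Set Car := {i | Ev fun n => rep i n ∈ A n}

theorem hterm (m i : Car) : Ev fun n => rep (MM.add (MM.mul m (MM.add i MM.one)) MM.one) n =
      rep m n * (rep i n + 1) + 1 :=
  (rep_val (.add (.mul (.var 0) (.add (.var 1) .one)) .one) (fun j => if j = 0 then m else i)).mp fun _ hn => hn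

theorem MM_preCode {A : ℕ → Set ℕ} (hA : ∃ k, Ev fun n => ∀ i ∈ A n, i < gg n k) (c : Car) :
    MM.PreCode c (IA A) ↔ Ev fun n => NM.PreCode (rep c n) (A n) := by
  constructor
  · rintro ⟨k, m, n', hc, hi⟩
    have hc' : Ev fun n => rep c n = pr (rep k n) (pr (rep m n) (rep n' n)) := by
      rw [hc]
      exact (rep_pair k (MM.pair m n')).mp2 (rep_pair m n') fun n h1 h2 => by rw [h1, h2]
    by_contra hcon
    rw [← ev_not] at hcon
    have h1 : Ev fun n => ∃ i, ¬ (i ∈ A n ↔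
        (i < rep k n ∧ NM.Dvd (rep m n * (i + 1) + 1) (rep n' n))) := by
      refine hcon.mp2 hc' fun n h1 h2 => ?_
      by_contra h3
      push Not at h3
      exact h1 ⟨rep k n, rep m n, rep n' n, h2, fun i => by
        by_contra h4; exact h4 (by have := h3 i; exact this)⟩
    obtain ⟨f, hf⟩ := choose_seq h1
    have hfb : ∃ k, Ev fun n => f n < gg n k := by
      obtain ⟨k1, hk1⟩ := rep_bound k
      obtain ⟨k2, hk2⟩ := hA
      refine ⟨max k1 k2 + 1, (hf.and (bound_mono (le_max_left k1 k2) hk1)).mp2 hk2 ?_⟩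
      rintro n ⟨h1, h2⟩ h3
      by_cases hmem : f n ∈ A n
      · exact (h3 _ hmem).trans ((gg_strictMono n) (Nat.lt_succ_of_le (le_max_right k1 k2)))
      · by_cases hlt : f n < rep k n
        · exact (hlt.trans h2).trans (gg_strictMono n (Nat.lt_succ_self _))
        · exfalso
          apply h1
          constructor
          · intro h; exact absurd h hmem
          · intro h; exact absurd h.1 hlt
    have h2 := hi (mk f hfb)
    rw [show (mk f hfb ∈ IA A) = (Ev fun n => rep (mk f hfb) n ∈ A n) from rfl,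
      show (MM.lt (mk f hfb) k ↔ _) from Iff.rfl, MM_dvd] at h2
    have h3 : (Ev fun n => f n ∈ A n) ↔
        Ev fun n => (f n < rep k n ∧ NM.Dvd (rep m n * (f n + 1) + 1) (rep n' n)) := by
      constructor
      · intro h
        have h4 := h2.1 (h.mp2 (rep_mk hfb) fun n h1 h2 => by rw [h2]; exact h1)
        refine ((Ev.and h4.1 h4.2).and (rep_mk hfb)).mp2 (hterm m (mk f hfb)) ?_
        rintro n ⟨⟨h5, h6⟩, h7⟩ h8
        rw [h7] at h5 h8
        rw [h8] at h6
        exact ⟨h5, h6⟩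
      · intro h
        have h4 := h2.2 ⟨h.mp2 (rep_mk hfb) fun n h1 h2 => by rw [h2]; exact h1.1, by
          refine (h.and (rep_mk hfb)).mp2 (hterm m (mk f hfb)) ?_
          rintro n ⟨h5, h7⟩ h8
          rw [h7] at h8
          rw [h8]; exact h5.2⟩
        exact h4.mp2 (rep_mk hfb) fun n h1 h2 => by rw [h2] at h1; exact h1
    by_cases hA : Ev fun n => f n ∈ A n
    · have hB := h3.1 hA
      have : Ev fun _ => False := (hf.and hA).mp2 hB fun n h1 h2 => h1.1 ⟨fun _ => h2, fun _ => h1.2⟩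
      exact ev_const.1 this
    · have hB := mt h3.2 hA
      rw [← ev_not] at hA hB
      have : Ev fun _ => False := (hf.and hA).mp2 hB fun n h1 h2 =>
        h1.1 ⟨fun h => absurd h h1.2, fun h => absurd h h2⟩
      exact ev_const.1 this
  · intro h
    obtain ⟨k, hk⟩ := choose_seq h
    obtain ⟨m, hm⟩ := choose_seq hk
    obtain ⟨n', hn'⟩ := choose_seq hm
    have hkb : ∃ l, Ev fun n => k n < gg n l := bound_of_lt (x := c) (hn'.mp fun n hn => by
      rw [show rep c n = pr (k n) (pr (m n) (n' n)) from hn.1]; exact le_pr_left _ _)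
    have hmb : ∃ l, Ev fun n => m n < gg n l := bound_of_lt (x := c) (hn'.mp fun n hn => by
      rw [show rep c n = pr (k n) (pr (m n) (n' n)) from hn.1]
      exact (le_pr_left _ _).trans (le_pr_right _ _))
    have hnb : ∃ l, Ev fun n => n' n < gg n l := bound_of_lt (x := c) (hn'.mp fun n hn => by
      rw [show rep c n = pr (k n) (pr (m n) (n' n)) from hn.1]
      exact (le_pr_right _ _).trans (le_pr_right _ _))
    refine ⟨mk k hkb, mk m hmb, mk n' hnb, ?_, fun i => ?_⟩
    · rw [car_ext]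
      refine ((hn'.and (rep_mk hkb)).and ((rep_mk hmb).and (rep_mk hnb))).mp2
        ((rep_pair (mk k hkb) (MM.pair (mk m hmb) (mk n' hnb))).and (rep_pair (mk m hmb) (mk n' hnb))) ?_
      rintro n ⟨⟨h1, h2⟩, h3, h4⟩ ⟨h5, h6⟩
      rw [h5, h6, h2, h3, h4]; exact h1.1
    · rw [show (i ∈ IA A) = (Ev fun n => rep i n ∈ A n) from rfl,
        show (MM.lt i (mk k hkb) ↔ Ev fun n => rep i n < rep (mk k hkb) n) from Iff.rfl,
        MM_dvd, ← ev_and]
      apply Ev.congr
      refine ((hn'.and (rep_mk hkb)).and ((rep_mk hmb).and (rep_mk hnb))).mp2 (hterm (mk m hmb) i) ?_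
      rintro n ⟨⟨h1, h2⟩, h3, h4⟩ h5
      rw [h5, h2, h3, h4]
      exact h1.2 (rep i n)

theorem MM_code {A : ℕ → Set ℕ} (hA : ∃ k, Ev fun n => ∀ i ∈ A n, i < gg n k) (c : Car) :
    MM.Code c (IA A) ↔ Ev fun n => NM.Code (rep c n) (A n) := by
  constructor
  · rintro ⟨h1, h2⟩
    rw [MM_preCode hA] at h1
    by_contra hcon
    rw [← ev_not] at hcon
    have h3 : Ev fun n => ∃ c', NM.PreCode c' (A n) ∧ c' < rep c n := by
      refine hcon.mp2 h1 fun n h3 h4 => ?_
      by_contra h5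
      push Not at h5
      exact h3 ⟨h4, fun c' hc' hlt => h5 c' hc' hlt⟩
    obtain ⟨f, hf⟩ := choose_seq h3
    have hfb : ∃ k, Ev fun n => f n < gg n k := bound_of_lt (x := c) (hf.mp fun n hn => hn.2.le)
    apply h2 (mk f hfb)
    · rw [MM_preCode hA]
      exact hf.mp2 (rep_mk hfb) fun n h1 h2 => by rw [h2]; exact h1.1
    · exact hf.mp2 (rep_mk hfb) fun n h1 h2 => by rw [h2]; exact h1.2
  · intro h
    refine ⟨(MM_preCode hA c).2 (h.mp fun n hn => hn.1), fun c' hc' hlt => ?_⟩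
    rw [MM_preCode hA] at hc'
    have : Ev fun _ => False := (h.and hc').mp2 hlt fun n h1 h2 => h1.1.2 _ h1.2 h2
    exact ev_const.1 this

/-! the path -/

theorem Zf_bound (x : Car) : ∃ k, Ev fun n => Zf (rep x n) < gg n k := by
  obtain ⟨k, hk⟩ := rep_bound x
  exact ⟨k + 1, hk.mp fun n hn => gr_lt n k ((Gr_spec _).2.2.2.2 _ hn.le)⟩

/-- the distinguished path -/
noncomputable def gP (x : Car) : Car := mk (fun n => Zf (rep x n)) (Zf_bound x)

theorem rep_gP (x : Car) : Ev fun n => rep (gP x) n = Zf (rep x n) := rep_mk _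

theorem graph_gP (s : Car) : MM.Graph gP s = IA fun n => Gset (rep s n) := by
  ext i
  constructor
  · rintro ⟨x, hx, rfl⟩
    refine (Ev.and hx (rep_gP x)).mp2 (rep_pair x (gP x)) ?_
    rintro n ⟨h1, h2⟩ h3
    exact ⟨rep x n, h1, by rw [h3, h2]⟩
  · intro h
    obtain ⟨f, hf⟩ := choose_seq (P := fun n x => x < rep s n ∧ rep i n = pr x (Zf x)) h
    have hfb : ∃ k, Ev fun n => f n < gg n k := bound_of_lt (x := s) (hf.mp fun n hn => hn.1.le)
    refine ⟨mk f hfb, hf.mp2 (rep_mk hfb) fun n h1 h2 => by rw [h2]; exact h1.1, ?_⟩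
    rw [car_ext]
    refine ((hf.and (rep_gP (mk f hfb))).and (rep_mk hfb)).mp2 (rep_pair (mk f hfb) (gP (mk f hfb))) ?_
    rintro n ⟨⟨h1, h2⟩, h3⟩ h4
    rw [h4, h2, h3]; exact h1.2

theorem Gset_bound (s : Car) : ∃ k, Ev fun n => ∀ i ∈ Gset (rep s n), i < gg n k := by
  obtain ⟨k, hk⟩ := rep_bound s
  refine ⟨k + 2, hk.mp fun n hn => ?_⟩
  rintro i ⟨x, hx, rfl⟩
  have h1 : Zf x < gg n (k + 1) := gr_lt n k ((Gr_spec _).2.2.2.2 _ (hx.trans hn).le)
  have h2 : x < gg n (k + 1) := (hx.trans hn).trans (gg_strictMono n (Nat.lt_succ_self k))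
  exact gr_lt n (k + 1) ((Gr_spec _).1 _ _ h2.le h1.le)

theorem exists_seqCode (s : Car) : ∃ c, MM.SeqCode c s gP := by
  obtain ⟨k, hk⟩ := rep_bound s
  have hb : ∃ k, Ev fun n => codeG (rep s n) < gg n k :=
    ⟨k + 1, hk.mp fun n hn => gr_lt n k ((Gr_spec _).2.2.1 _ hn.le)⟩
  refine ⟨mk _ hb, ?_⟩
  unfold Model.SeqCode
  rw [graph_gP, MM_code (Gset_bound s)]
  exact (rep_mk hb).mp fun n hn => by rw [hn]; exact codeG_spec _

theorem graph_mem : {i | ∃ x, i = MM.pair x (gP x)} ∈ MM.sets := by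
  have hform : ∀ z' y w, satN (a3 z' y w) (.mem (.var 1) (Nat.pair 3 0)) ↔
      ∃ u, y = pr u (Zf u) := by
    intro z' y w
    rw [satN_mem]
    constructor
    · rintro ⟨u, y', h1, h2⟩
      refine ⟨u, ?_⟩
      rw [← h2]; exact h1
    · rintro ⟨u, h1⟩
      exact ⟨u, Zf u, h1, rfl⟩
  have key : ∀ z : Car, z ∈ ({i | ∃ x, i = MM.pair x (gP x)} : Set Car) ↔ Ev fun n => ∃ u, rep z n = pr u (Zf u) := by
    intro z
    constructor
    · rintro ⟨x, rfl⟩
      exact (rep_pair x (gP x)).mp2 (rep_gP x) fun n h1 h2 => ⟨rep x n, by rw [h1, h2]⟩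
    · intro h
      obtain ⟨f, hf⟩ := choose_seq h
      have hfb : ∃ k, Ev fun n => f n < gg n k := bound_of_lt (x := z) (hf.mp fun n hn => by
        rw [hn]; exact le_pr_left _ _)
      refine ⟨mk f hfb, ?_⟩
      rw [car_ext]
      refine ((hf.and (rep_gP (mk f hfb))).and (rep_mk hfb)).mp2 (rep_pair (mk f hfb) (gP (mk f hfb))) ?_
      rintro n ⟨⟨h1, h2⟩, h3⟩ h4
      rw [h4, h2, h3]; exact h1
  refine ⟨(.mem (.var 1) (Nat.pair 3 0), .neg (.mem (.var 1) (Nat.pair 3 0))), cst 0, fun z => ⟨?_, ?_⟩⟩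
  · rw [key]
    constructor
    · intro h
      exact ⟨cst 0, h.mp fun n h1 => by rw [hform]; exact h1⟩
    · rintro ⟨m, hm⟩
      exact hm.mp fun n h1 => by rw [hform] at h1; exact h1
  · rw [key, ← ev_not]
    constructor
    · intro h
      exact ⟨cst 0, h.mp fun n h1 => by rw [satN_neg, hform]; exact h1⟩
    · rintro ⟨m, hm⟩
      exact hm.mp fun n h1 => by rw [satN_neg, hform] at h1; exact h1

end Pool.Agent.Helper317.TP
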