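import Pool.Agent.Helper317.TP.Tree2

/-!
No path of the tree is first-order definable.
-/

namespace Pool.Agent.Helper317.TP

open Function Filter SOA

/-- the full graph -/
def FG (h : Car → Car) : Set Car := {i | ∃ x, i = MM.pair x (h x)}

theorem up3 (a b c : Car) : ∃ s, clt a s ∧ clt b s ∧ clt c s := by
  refine ⟨cadd (cadd (cadd a b) c) (cst 1), ?_, ?_, ?_⟩
  · refine ((rep_cadd (cadd (cadd a b) c) (cst 1)).and (rep_cst 1)).mp2
      ((rep_cadd (cadd a b) c).and (rep_cadd a b)) ?_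
    rintro n ⟨h1, h2⟩ ⟨h3, h4⟩
    rw [h1, h2, h3, h4]; omega
  · refine ((rep_cadd (cadd (cadd a b) c) (cst 1)).and (rep_cst 1)).mp2
      ((rep_cadd (cadd a b) c).and (rep_cadd a b)) ?_
    rintro n ⟨h1, h2⟩ ⟨h3, h4⟩
    rw [h1, h2, h3, h4]; omega
  · refine ((rep_cadd (cadd (cadd a b) c) (cst 1)).and (rep_cst 1)).mp2
      ((rep_cadd (cadd a b) c).and (rep_cadd a b)) ?_
    rintro n ⟨h1, h2⟩ ⟨h3, h4⟩
    rw [h1, h2, h3, h4]; omega

theorem mem_FG {h : Car → Car} {x u : Car} : MM.pair x u ∈ FG h ↔ u = h x := by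
  constructor
  · rintro ⟨y, e⟩
    obtain ⟨rfl, rfl⟩ := pair_inj e
    rfl
  · rintro rfl; exact ⟨x, rfl⟩

theorem FG_graph {h : Car → Car} {x u s : Car} (hm : MM.pair x u ∈ FG h) (hx : clt x s) :
    MM.pair x u ∈ MM.Graph h s := by
  rw [mem_FG] at hm
  subst hm
  exact ⟨x, hx, rfl⟩

theorem good_FG {h : Car → Car} (hp : MM.IsPath (TT MM) h) : GoodS MM (FG h) := by
  refine ⟨?_, ?_, ?_, ?_, ?_, ?_, ?_, ?_, ?_, ?_, ?_⟩
  · intro y x u h1
    obtain ⟨s, hs, _, _⟩ := up3 (MM.pair (MM.pair (num MM 0) (num MM 0)) (MM.pair y x)) (cst 0) (cst 0)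
    exact (path_good hp s).c0 y x u (FG_graph h1 hs)
  · intro i y x u w h1 h2
    obtain ⟨s, hs, hs', _⟩ := up3 _ _ (cst 0)
    exact (path_good hp s).c0' i y x u w (FG_graph h1 hs) (FG_graph h2 hs')
  · intro x u h1
    obtain ⟨s, hs, _, _⟩ := up3 (MM.pair (MM.pair (num MM 1) (num MM 0)) x) (cst 0) (cst 0)
    exact (path_good hp s).c1 x u (FG_graph h1 hs)
  · intro x u h1
    obtain ⟨s, hs, _, _⟩ := up3 (MM.pair (MM.pair (num MM 1) (num MM 1)) x) (cst 0) (cst 0)
    exact (path_good hp s).c1' x u (FG_graph h1 hs)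
  · intro a b x u v w h1 h2 h3
    obtain ⟨s, hs, hs', hs''⟩ := up3 _ _ _
    exact (path_good hp s).c2 a b x u v w (FG_graph h1 hs) (FG_graph h2 hs') (FG_graph h3 hs'')
  · intro a b x u v w h1 h2 h3
    obtain ⟨s, hs, hs', hs''⟩ := up3 _ _ _
    exact (path_good hp s).c3 a b x u v w (FG_graph h1 hs) (FG_graph h2 hs') (FG_graph h3 hs'')
  · intro a b x u v w h1 h2 h3
    obtain ⟨s, hs, hs', hs''⟩ := up3 _ _ _
    exact (path_good hp s).c4 a b x u v w (FG_graph h1 hs) (FG_graph h2 hs') (FG_graph h3 hs'')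
  · intro a b x u v w h1 h2 h3
    obtain ⟨s, hs, hs', hs''⟩ := up3 _ _ _
    exact (path_good hp s).c5 a b x u v w (FG_graph h1 hs) (FG_graph h2 hs') (FG_graph h3 hs'')
  · intro a x u w h1 h2
    obtain ⟨s, hs, hs', _⟩ := up3 _ _ (cst 0)
    exact (path_good hp s).c6 a x u w (FG_graph h1 hs) (FG_graph h2 hs')
  · intro a b x u v w h1 h2 h3
    obtain ⟨s, hs, hs', hs''⟩ := up3 _ _ _
    exact (path_good hp s).c7 a b x u v w (FG_graph h1 hs) (FG_graph h2 hs') (FG_graph h3 hs'')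
  · intro a y x u w h1 h2
    obtain ⟨s, hs, hs', _⟩ := up3 _ _ (cst 0)
    exact (path_good hp s).c8 a y x u w (FG_graph h1 hs) (FG_graph h2 hs')

theorem num_eq (j : ℕ) : num MM j = cst j := by
  rw [car_ext]
  exact (num_rep j).mp2 (rep_cst j) fun n h1 h2 => by rw [h1, h2]

theorem cst_pair (a b : ℕ) : MM.pair (cst a) (cst b) = cst (pr a b) := by
  rw [car_ext]
  refine ((rep_pair (cst a) (cst b)).and (rep_cst a)).mp2 ((rep_cst b).and (rep_cst (pr a b))) ?_
  rintro n ⟨h1, h2⟩ ⟨h3, h4⟩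
  rw [h1, h2, h3, h4]

theorem cst_succ (a : ℕ) : MM.add (cst a) MM.one = cst (a + 1) := by
  rw [car_ext]
  refine ((rep_cadd (cst a) (cst 1)).and (rep_cst a)).mp2 ((rep_cst 1).and (rep_cst (a + 1))) ?_
  rintro n ⟨h1, h2⟩ ⟨h3, h4⟩
  have h1' : rep (MM.add (cst a) MM.one) n = rep (cst a) n + rep (cst 1) n := h1
  rw [h1', h2, h3, h4]

/-- codes of terms -/
def tt (ρ : ℕ → ℕ) : Tm → ℕ
  | .var i => pr 0 (ρ i)
  | .zero => pr 1 0
  | .one => pr 1 1
  | .add s t => pr 2 (pr (tt ρ s) (tt ρ t))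
  | .mul s t => pr 3 (pr (tt ρ s) (tt ρ t))

/-- the positions under a quantifier -/
def shift (ρ : ℕ → ℕ) (i : ℕ) : ℕ → ℕ := update (fun j => ρ j + 1) i 0

/-- codes of formulas -/
def ft : (ℕ → ℕ) → Fm → ℕ
  | ρ, .eq s t => pr 4 (pr (tt ρ s) (tt ρ t))
  | ρ, .lt s t => pr 5 (pr (tt ρ s) (tt ρ t))
  | _, .mem _ _ => 0
  | ρ, .neg φ => pr 6 (ft ρ φ)
  | ρ, .and φ ψ => pr 7 (pr (ft ρ φ) (ft ρ ψ))
  | ρ, .all i φ => pr 8 (ft (shift ρ i) φ)
  | _, .allS _ _ => 0

/-- `x` lists the values of `v` at the positions `ρ` -/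
def En (h : Car → Car) (N : ℕ) (ρ : ℕ → ℕ) (v : ℕ → Car) (x : Car) : Prop :=
  ∀ i < N, h (MM.pair (cst (pr 0 (ρ i))) x) = v i

section
variable {h : Car → Car} (hp : MM.IsPath (TT MM) h)
include hp

theorem h_c0 (y x : Car) : h (MM.pair (cst (pr 0 0)) (MM.pair y x)) = y := by
  have := (good_FG hp).c0 y x _ (mem_FG.2 rfl)
  rwa [num_eq, cst_pair] at this

theorem h_c0' (i : ℕ) (y x : Car) : h (MM.pair (cst (pr 0 (i + 1))) (MM.pair y x)) =
    h (MM.pair (cst (pr 0 i)) x) := by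
  have := (good_FG hp).c0' (cst i) y x _ _ (mem_FG.2 rfl) (mem_FG.2 rfl)
  rwa [num_eq, cst_pair, cst_succ, cst_pair] at this

theorem val_lemma {N : ℕ} {ρ : ℕ → ℕ} {v : ℕ → Car} {x : Car} (hE : En h N ρ v x) (t : Tm)
    (ht : t.bd ≤ N) : h (MM.pair (cst (tt ρ t)) x) = t.val MM v := by
  induction t with
  | var i => exact hE i ht
  | zero =>
    have := (good_FG hp).c1 x _ (mem_FG.2 rfl)
    rwa [num_eq, num_eq, cst_pair] at this
  | one =>
    have := (good_FG hp).c1' x _ (mem_FG.2 rfl)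
    rwa [num_eq, cst_pair] at this
  | add s t ihs iht =>
    have := (good_FG hp).c2 (cst (tt ρ s)) (cst (tt ρ t)) x _ _ _ (mem_FG.2 rfl) (mem_FG.2 rfl) (mem_FG.2 rfl)
    rw [num_eq, cst_pair, cst_pair, ihs (le_trans (le_max_left _ _) ht),
      iht (le_trans (le_max_right _ _) ht)] at this
    exact this
  | mul s t ihs iht =>
    have := (good_FG hp).c3 (cst (tt ρ s)) (cst (tt ρ t)) x _ _ _ (mem_FG.2 rfl) (mem_FG.2 rfl) (mem_FG.2 rfl)
    rw [num_eq, cst_pair, cst_pair, ihs (le_trans (le_max_left _ _) ht),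
      iht (le_trans (le_max_right _ _) ht)] at this
    exact this

theorem En_shift {N : ℕ} {ρ : ℕ → ℕ} {v : ℕ → Car} {x : Car} (hE : En h N ρ v x) (i : ℕ) (y : Car) :
    En h N (shift ρ i) (update v i y) (MM.pair y x) := by
  intro j hj
  by_cases hji : j = i
  · subst hji
    unfold shift
    rw [update_self, update_self]
    exact h_c0 hp y x
  · unfold shift
    rw [update_of_ne hji, update_of_ne hji, h_c0' hp]
    exact hE j hj

theorem exists_pred {a : Car} (ha : a ≠ MM.zero) : ∃ w, a = MM.add w MM.one := by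
  have hpos : Ev fun n => rep a n ≠ 0 := by
    have : ¬ Ev fun n => rep a n = rep MM.zero n := fun h => ha (car_ext.2 h)
    rw [← ev_not] at this
    exact this.mp2 (rep_cst 0) fun n h1 h2 => by
      rw [show rep MM.zero n = rep (cst 0) n from rfl, h2] at h1; exact h1
  have hb : ∃ k, Ev fun n => rep a n - 1 < gg n k :=
    bound_of_lt (x := a) (ev_of_forall fun n => Nat.sub_le _ _)
  refine ⟨mk _ hb, ?_⟩
  rw [car_ext]
  refine ((rep_cadd (mk _ hb) (cst 1)).and (rep_mk hb)).mp2 (hpos.and (rep_cst 1)) ?_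
  rintro n ⟨h1, h2⟩ ⟨h3, h4⟩
  have h1' : rep (MM.add (mk _ hb) MM.one) n = rep (mk _ hb) n + rep (cst 1) n := h1
  rw [h1', h2, h4]; omega

theorem truth_lemma {N : ℕ} {V : ℕ → Set Car} (φ : Fm) : φ.NoSet → φ.bd ≤ N →
    ∀ {ρ : ℕ → ℕ} {v : ℕ → Car} {x : Car}, En h N ρ v x →
      (h (MM.pair (cst (ft ρ φ)) x) = MM.zero ↔ Sat MM v V φ) := by
  induction φ with
  | eq s t =>
    intro _ hb ρ v x hE
    have := (good_FG hp).c4 (cst (tt ρ s)) (cst (tt ρ t)) x _ _ _ (mem_FG.2 rfl) (mem_FG.2 rfl) (mem_FG.2 rfl)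
    rw [num_eq, cst_pair, cst_pair, val_lemma hp hE s (le_trans (le_max_left _ _) hb),
      val_lemma hp hE t (le_trans (le_max_right _ _) hb)] at this
    exact this
  | lt s t =>
    intro _ hb ρ v x hE
    have := (good_FG hp).c5 (cst (tt ρ s)) (cst (tt ρ t)) x _ _ _ (mem_FG.2 rfl) (mem_FG.2 rfl) (mem_FG.2 rfl)
    rw [num_eq, cst_pair, cst_pair, val_lemma hp hE s (le_trans (le_max_left _ _) hb),
      val_lemma hp hE t (le_trans (le_max_right _ _) hb)] at this
    exact this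
  | mem t i => intro hn; exact absurd hn id
  | neg φ ih =>
    intro hn hb ρ v x hE
    have := (good_FG hp).c6 (cst (ft ρ φ)) x _ _ (mem_FG.2 rfl) (mem_FG.2 rfl)
    rw [num_eq, cst_pair, Ne, ih hn hb hE] at this
    exact this
  | and φ ψ ih1 ih2 =>
    intro hn hb ρ v x hE
    have := (good_FG hp).c7 (cst (ft ρ φ)) (cst (ft ρ ψ)) x _ _ _ (mem_FG.2 rfl) (mem_FG.2 rfl) (mem_FG.2 rfl)
    rw [num_eq, cst_pair, cst_pair, ih1 hn.1 (le_trans (le_max_left _ _) hb) hE,
      ih2 hn.2 (le_trans (le_max_right _ _) hb) hE] at this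
    exact this
  | all i φ ih =>
    intro hn hb ρ v x hE
    have hc := fun y => (good_FG hp).c8 (cst (ft (shift ρ i) φ)) y x _ _ (mem_FG.2 rfl) (mem_FG.2 rfl)
    have e : MM.pair (MM.pair (num MM 8) (cst (ft (shift ρ i) φ))) x = MM.pair (cst (ft ρ (.all i φ))) x := by
      rw [num_eq, cst_pair]; rfl
    simp only [e] at hc
    have hI : ∀ y, (h (MM.pair (cst (ft (shift ρ i) φ)) (MM.pair y x)) = MM.zero ↔
        Sat MM (update v i y) V φ) := fun y =>
      ih hn (le_trans (le_max_right _ _) hb) (En_shift hp hE i y)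
    rw [sat_all]
    constructor
    · intro h0 y
      exact (hI y).1 ((hc y).1 h0)
    · intro hs
      by_contra h0
      obtain ⟨w, hw⟩ := exists_pred hp h0
      exact (hc w).2 hw ((hI w).2 (hs w))
  | allS i φ _ => intro hn; exact absurd hn id

end

/-- lists of parameters -/
noncomputable def LC : ℕ → (ℕ → Car) → Car
  | 0, _ => cst 0
  | n + 1, v => MM.pair (v 0) (LC n fun i => v (i + 1))

theorem LC_get {h : Car → Car} (hp : MM.IsPath (TT MM) h) : ∀ (n : ℕ) (v : ℕ → Car) (j : ℕ), j < n →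
    h (MM.pair (cst (pr 0 j)) (LC n v)) = v j := by
  intro n
  induction n with
  | zero => intro v j hj; omega
  | succ n ih =>
    intro v j hj
    cases j with
    | zero => exact h_c0 hp _ _
    | succ j =>
      show h (MM.pair (cst (pr 0 (j + 1))) (MM.pair (v 0) (LC n fun i => v (i + 1)))) = v (j + 1)
      rw [h_c0' hp, ih _ j (by omega)]

theorem no_def {h : Car → Car} (hp : MM.IsPath (TT MM) h) : ¬ MM.ArithDef h := by
  rintro ⟨φ, hφ, v, V, hd⟩
  let N := φ.bd + 2
  let δ : Fm := .ex 0 (.and (.eq (.var 0) (PP (.var N) (PP (.var N) (PP (.var (N + 1)) (.var (N + 1))))))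
    (.neg (.ex 1 (.and (.eq (.var 1) .zero) φ))))
  have hδ : δ.NoSet := ⟨trivial, ⟨trivial, hφ⟩⟩
  have hbd : δ.bd ≤ N + 2 := by
    have hN : φ.bd ≤ N := Nat.le_add_right _ _
    simp only [δ, Fm.ex, Fm.bd, PP, pairT, Tm.bd]
    omega
  let ρ : ℕ → ℕ := fun j => if j = N then 0 else if j = N + 1 then 1 else j + 2
  let P : Car := LC N v
  let d : Car := cst (ft ρ δ)
  let x : Car := MM.pair d (MM.pair P P)
  let v' : ℕ → Car := update (update v N d) (N + 1) P
  have hE : En h (N + 2) ρ v' x := by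
    intro i hi
    by_cases h1 : i = N
    · subst h1
      have e1 : ρ N = 0 := if_pos rfl
      have e2 : v' N = d := by simp only [v']; rw [update_of_ne (by omega), update_self]
      rw [e1, e2]
      exact h_c0 hp _ _
    · by_cases h2 : i = N + 1
      · subst h2
        have e1 : ρ (N + 1) = 1 := by simp [ρ]
        have e2 : v' (N + 1) = P := by simp only [v']; rw [update_self]
        rw [e1, e2]
        show h (MM.pair (cst (pr 0 (0 + 1))) (MM.pair d (MM.pair P P))) = P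
        rw [h_c0' hp, h_c0 hp]
      · have e1 : ρ i = (i + 1) + 1 := by simp only [ρ]; rw [if_neg h1, if_neg h2]
        have e2 : v' i = v i := by simp only [v']; rw [update_of_ne h2, update_of_ne h1]
        rw [e1, e2]
        show h (MM.pair (cst (pr 0 ((i + 1) + 1))) (MM.pair d (MM.pair P P))) = v i
        rw [h_c0' hp, h_c0' hp]
        exact LC_get hp N v i (by omega)
  have h1 := truth_lemma hp (V := V) δ hδ hbd hE
  have h2 : Sat MM v' V δ ↔ ¬ h (MM.pair d x) = MM.zero := by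
    simp only [δ]
    rw [sat_ex]
    have hterm : ∀ a : Car, (PP (.var N) (PP (.var N) (PP (.var (N + 1)) (.var (N + 1))))).val MM (update v' 0 a)
        = MM.pair d x := by
      intro a
      simp only [PP, val_pairT, Tm.val]
      rw [update_of_ne (by omega), update_of_ne (by omega)]
      simp only [v']
      rw [update_self, update_of_ne (by omega), update_self]
    have hin : ∀ a : Car, Sat MM (update v' 0 a) V (.ex 1 (.and (.eq (.var 1) .zero) φ)) ↔ h a = MM.zero := by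
      intro a
      rw [sat_ex]
      have e : ∀ b : Car, Sat MM (update (update v' 0 a) 1 b) V φ ↔ h a = b := by
        intro b
        rw [hd a b]
        refine sat_congr φ (fun i hi => ?_) fun _ _ => rfl
        by_cases hi1 : i = 1
        · subst hi1; rw [update_self, update_self]
        · by_cases hi0 : i = 0
          · subst hi0
            rw [update_of_ne hi1, update_of_ne hi1, update_self, update_self]
          · rw [update_of_ne hi1, update_of_ne hi1, update_of_ne hi0, update_of_ne hi0]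
            simp only [v']
            rw [update_of_ne (by omega), update_of_ne (by omega)]
      constructor
      · rintro ⟨b, hb⟩
        rw [sat_and, sat_eq, e] at hb
        simp only [Tm.val, update_self] at hb
        rw [hb.2, hb.1]
      · intro h0
        refine ⟨MM.zero, ?_⟩
        rw [sat_and, sat_eq, e]
        exact ⟨by simp only [Tm.val, update_self], h0⟩
    constructor
    · rintro ⟨a, ha⟩
      rw [sat_and, sat_eq, sat_neg, hin, hterm] at ha
      simp only [Tm.val, update_self] at ha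
      rw [← ha.1]; exact ha.2
    · intro h0
      refine ⟨MM.pair d x, ?_⟩
      rw [sat_and, sat_eq, sat_neg, hin, hterm]
      exact ⟨by simp only [Tm.val, update_self], h0⟩
  rw [h2] at h1
  exact (iff_not_self h1).elim

/-! the structure with the path adjoined -/

theorem sat_adjoin_delta {M : Model} {g : M.Num → M.Num} {φ : Fm} (h : IsDelta0 φ) :
    ∀ (v : ℕ → M.Num) (V : ℕ → Set M.Num), Sat (M.adjoin g) v V φ ↔ Sat M v V φ := by
  have hv : ∀ (t : Tm) (v : ℕ → M.Num), t.val (M.adjoin g) v = t.val M v := by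
    intro t v
    induction t with
    | var i => rfl
    | zero => rfl
    | one => rfl
    | add s t ihs iht =>
      show M.add (s.val (M.adjoin g) v) (t.val (M.adjoin g) v) = _
      rw [ihs, iht]; rfl
    | mul s t ihs iht =>
      show M.mul (s.val (M.adjoin g) v) (t.val (M.adjoin g) v) = _
      rw [ihs, iht]; rfl
  induction h with
  | eq s t => intro v V; rw [sat_eq, sat_eq, hv, hv]; exact Iff.rfl
  | lt s t => intro v V; rw [sat_lt, sat_lt, hv, hv]; exact Iff.rfl
  | mem t i => intro v V; rw [sat_mem, sat_mem, hv]; exact Iff.rfl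
  | neg _ ih => intro v V; rw [sat_neg, sat_neg, ih]
  | and _ _ ih1 ih2 => intro v V; rw [sat_and, sat_and, ih1, ih2]
  | ball i t _ _ ih =>
    intro v V
    rw [sat_all, sat_all]
    refine forall_congr' fun a => ?_
    rw [sat_imp, sat_imp, ih, sat_lt, sat_lt, hv, hv]
    exact Iff.rfl

theorem sat_adjoin_level {M : Model} {g : M.Num → M.Num} : ∀ (n : ℕ) (b : Bool) {φ : Fm},
    IsLevel b n φ → ∀ (v : ℕ → M.Num) (V : ℕ → Set M.Num), Sat (M.adjoin g) v V φ ↔ Sat M v V φ
  | 0, true, _, h, v, V => sat_adjoin_delta h v V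
  | 0, false, _, h, v, V => sat_adjoin_delta h v V
  | n + 1, true, _, ⟨i, ψ, e, h⟩, v, V => by
    rw [e, sat_ex, sat_ex]
    exact exists_congr fun a => sat_adjoin_level n false h _ V
  | n + 1, false, _, ⟨i, ψ, e, h⟩, v, V => by
    rw [e, sat_all, sat_all]
    exact forall_congr' fun a => sat_adjoin_level n true h _ V

theorem bsigma_adjoin {M : Model} {g : M.Num → M.Num} {n : ℕ} (h : BSigma n M)
    (hc : Delta1CA M) (hg : {i | ∃ x, i = M.pair x (g x)} ∈ M.sets) : BSigma n (M.adjoin g) := by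
  have hsub : ∀ X ∈ (M.adjoin g).sets, X ∈ M.sets := by
    rintro X ⟨φ, ψ, hφ, hψ, v, V, hV, hX⟩
    have hV' : M.SetAsg V := by
      intro j
      rcases hV j with h | h
      · exact h
      · rw [h]; exact hg
    have := hc φ ψ hφ hψ 0 v V hV' fun a => (hX a).1.symm.trans (hX a).2
    have e : X = {a | Sat M (update v 0 a) V φ} := by
      ext a; exact (hX a).1
    rw [e]; exact this
  intro φ hφ i j hij v V hV a hyp
  have hs := fun (v : ℕ → M.Num) => sat_adjoin_level (g := g) n true hφ v V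
  obtain ⟨b, hb⟩ := h φ hφ i j hij v V (fun k => hsub _ (hV k)) a (fun x hx => by
    obtain ⟨y, hy⟩ := hyp x hx
    exact ⟨y, (hs _).1 hy⟩)
  refine ⟨b, fun x hx => ?_⟩
  obtain ⟨y, hy, hy'⟩ := hb x hx
  exact ⟨y, hy, (hs _).2 hy'⟩

theorem main : ∃ M : Model, RCA0 M ∧ BSigma 2 M ∧ ¬ ISigma 2 M ∧
    ∃ T : Set M.Num, M.IsTree T ∧ M.Pi1Set T ∧
      (∃ g, M.IsPath T g ∧ BSigma 2 (M.adjoin g)) ∧ ∀ h, M.IsPath T h → ¬ M.ArithDef h :=
  ⟨MM, MM_RCA0, MM_collection, MM_not_ISigma2, TT MM, TT_tree, TT_pi,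
    ⟨gP, gP_path, bsigma_adjoin MM_collection MM_comprehension graph_mem⟩,
    fun _ hp => no_def hp⟩

end Pool.Agent.Helper317.TP
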