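import Pool.Agent.Helper317.TP.NotI

/-!
The tree and the formula defining it.
-/

namespace Pool.Agent.Helper317.TP

open Function Filter SOA

/-- numerals -/
def num (M : Model) : ℕ → M.Num
  | 0 => M.zero
  | 1 => M.one
  | n + 2 => M.add (num M (n + 1)) M.one

/-- numerals as terms -/
def nT : ℕ → Tm
  | 0 => .zero
  | 1 => .one
  | n + 2 => .add (nT (n + 1)) .one

theorem nT_val (M : Model) (v : ℕ → M.Num) : ∀ n, (nT n).val M v = num M n
  | 0 => rfl
  | 1 => rfl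
  | n + 2 => by
    show M.add ((nT (n + 1)).val M v) M.one = M.add (num M (n + 1)) M.one
    rw [nT_val M v (n + 1)]

theorem nT_fresh (i : ℕ) : ∀ n, (nT n).Fresh i
  | 0 => trivial
  | 1 => trivial
  | n + 2 => ⟨nT_fresh i (n + 1), trivial⟩

/-- the local conditions on a (partial) value function, given by its graph -/
structure GoodS (M : Model) (S : Set M.Num) : Prop where
  c0 : ∀ y x u, M.pair (M.pair (M.pair (num M 0) (num M 0)) (M.pair y x)) u ∈ S → u = y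
  c0' : ∀ i y x u w, M.pair (M.pair (M.pair (num M 0) (M.add i M.one)) (M.pair y x)) u ∈ S →
    M.pair (M.pair (M.pair (num M 0) i) x) w ∈ S → u = w
  c1 : ∀ x u, M.pair (M.pair (M.pair (num M 1) (num M 0)) x) u ∈ S → u = M.zero
  c1' : ∀ x u, M.pair (M.pair (M.pair (num M 1) (num M 1)) x) u ∈ S → u = M.one
  c2 : ∀ a b x u v w, M.pair (M.pair a x) u ∈ S → M.pair (M.pair b x) v ∈ S →
    M.pair (M.pair (M.pair (num M 2) (M.pair a b)) x) w ∈ S → w = M.add u v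
  c3 : ∀ a b x u v w, M.pair (M.pair a x) u ∈ S → M.pair (M.pair b x) v ∈ S →
    M.pair (M.pair (M.pair (num M 3) (M.pair a b)) x) w ∈ S → w = M.mul u v
  c4 : ∀ a b x u v w, M.pair (M.pair a x) u ∈ S → M.pair (M.pair b x) v ∈ S →
    M.pair (M.pair (M.pair (num M 4) (M.pair a b)) x) w ∈ S → (w = M.zero ↔ u = v)
  c5 : ∀ a b x u v w, M.pair (M.pair a x) u ∈ S → M.pair (M.pair b x) v ∈ S →
    M.pair (M.pair (M.pair (num M 5) (M.pair a b)) x) w ∈ S → (w = M.zero ↔ M.lt u v)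
  c6 : ∀ a x u w, M.pair (M.pair a x) u ∈ S →
    M.pair (M.pair (M.pair (num M 6) a) x) w ∈ S → (w = M.zero ↔ u ≠ M.zero)
  c7 : ∀ a b x u v w, M.pair (M.pair a x) u ∈ S → M.pair (M.pair b x) v ∈ S →
    M.pair (M.pair (M.pair (num M 7) (M.pair a b)) x) w ∈ S →
      (w = M.zero ↔ u = M.zero ∧ v = M.zero)
  c8 : ∀ a y x u w, M.pair (M.pair (M.pair (num M 8) a) x) w ∈ S →
    M.pair (M.pair a (M.pair y x)) u ∈ S →
      (w = M.zero → u = M.zero) ∧ (w = M.add y M.one → u ≠ M.zero)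

theorem GoodS.mono {M : Model} {S S' : Set M.Num} (h : GoodS M S) (hs : S' ⊆ S) : GoodS M S' where
  c0 y x u h1 := h.c0 y x u (hs h1)
  c0' i y x u w h1 h2 := h.c0' i y x u w (hs h1) (hs h2)
  c1 x u h1 := h.c1 x u (hs h1)
  c1' x u h1 := h.c1' x u (hs h1)
  c2 a b x u v w h1 h2 h3 := h.c2 a b x u v w (hs h1) (hs h2) (hs h3)
  c3 a b x u v w h1 h2 h3 := h.c3 a b x u v w (hs h1) (hs h2) (hs h3)
  c4 a b x u v w h1 h2 h3 := h.c4 a b x u v w (hs h1) (hs h2) (hs h3)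
  c5 a b x u v w h1 h2 h3 := h.c5 a b x u v w (hs h1) (hs h2) (hs h3)
  c6 a x u w h1 h2 := h.c6 a x u w (hs h1) (hs h2)
  c7 a b x u v w h1 h2 h3 := h.c7 a b x u v w (hs h1) (hs h2) (hs h3)
  c8 a y x u w h1 h2 := h.c8 a y x u w (hs h1) (hs h2)

/-- the tree -/
def TT (M : Model) : Set M.Num := {c | ∃ s f, M.SeqCode c s f ∧ GoodS M (M.Graph f s)}

/-! bounded quantifiers -/

def bAll (i : ℕ) (t : Tm) (φ : Fm) : Fm := .all i (.imp (.lt (.var i) t) φ)
def bEx (i : ℕ) (t : Tm) (φ : Fm) : Fm := .neg (bAll i t (.neg φ))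
def iffF (φ ψ : Fm) : Fm := .and (.imp φ ψ) (.imp ψ φ)

section
variable {M : Model} {v : ℕ → M.Num} {V : ℕ → Set M.Num}

theorem val_fresh {i : ℕ} {a : M.Num} (t : Tm) (h : t.Fresh i) : t.val M (update v i a) = t.val M v := by
  induction t with
  | var j => simp only [Tm.Fresh] at h; simp only [Tm.val]; rw [update_of_ne h]
  | zero => rfl
  | one => rfl
  | add s t ihs iht => simp only [Tm.Fresh] at h; simp only [Tm.val]; rw [ihs h.1, iht h.2]
  | mul s t ihs iht => simp only [Tm.Fresh] at h; simp only [Tm.val]; rw [ihs h.1, iht h.2]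

theorem sat_bAll {i : ℕ} {t : Tm} (h : t.Fresh i) {φ : Fm} : Sat M v V (bAll i t φ) ↔
    ∀ a, M.lt a (t.val M v) → Sat M (update v i a) V φ := by
  unfold bAll
  rw [sat_all]
  refine forall_congr' fun a => ?_
  rw [sat_imp, sat_lt, val_fresh t h]
  simp only [Tm.val, update_self]

theorem sat_bEx {i : ℕ} {t : Tm} (h : t.Fresh i) {φ : Fm} : Sat M v V (bEx i t φ) ↔
    ∃ a, M.lt a (t.val M v) ∧ Sat M (update v i a) V φ := by
  unfold bEx
  rw [sat_neg, sat_bAll h]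
  push Not
  simp only [sat_neg, not_not]

theorem sat_iffF {φ ψ : Fm} : Sat M v V (iffF φ ψ) ↔ (Sat M v V φ ↔ Sat M v V ψ) := by
  unfold iffF
  rw [sat_and, sat_imp, sat_imp]; tauto

theorem val_pairT {s t : Tm} : (pairT s t).val M v = M.pair (s.val M v) (t.val M v) := rfl
end

theorem d0_imp {φ ψ : Fm} (h1 : IsDelta0 φ) (h2 : IsDelta0 ψ) : IsDelta0 (.imp φ ψ) :=
  .neg (.and h1 (.neg h2))
theorem d0_iff {φ ψ : Fm} (h1 : IsDelta0 φ) (h2 : IsDelta0 ψ) : IsDelta0 (iffF φ ψ) :=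
  .and (d0_imp h1 h2) (d0_imp h2 h1)
theorem d0_bAll {i : ℕ} {t : Tm} (h : t.Fresh i) {φ : Fm} (h1 : IsDelta0 φ) : IsDelta0 (bAll i t φ) :=
  .ball i t h h1
theorem d0_bEx {i : ℕ} {t : Tm} (h : t.Fresh i) {φ : Fm} (h1 : IsDelta0 φ) : IsDelta0 (bEx i t φ) :=
  .neg (.ball i t h (.neg h1))

theorem fr {i j : ℕ} (h : j ≠ i) : (Tm.var j).Fresh i := h
theorem fr1 {i j : ℕ} (h : j ≠ i) : (Tm.add (.var j) .one).Fresh i := ⟨h, trivial⟩

/-- membership in the set coded by the triple of variables `p, q, r` -/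
def memF (p q r : ℕ) (t : Tm) : Fm :=
  .and (.lt t (.var p)) (bEx 8 (.add (.var r) .one)
    (.eq (.mul (.add (.mul (.var q) (.add t .one)) .one) (.var 8)) (.var r)))

/-- the set coded by a triple -/
def SS (M : Model) (k m n : M.Num) : Set M.Num :=
  {i | M.lt i k ∧ M.Dvd (M.add (M.mul m (M.add i M.one)) M.one) n}

theorem d0_memF {p q r : ℕ} {t : Tm} (hr : r ≠ 8) : IsDelta0 (memF p q r t) := by
  refine .and (.lt _ _) (d0_bEx (fr1 hr) (.eq _ _))

/-! order facts in the structure -/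

theorem clt_succ {a b : Car} : clt a (cadd b (cst 1)) ↔ clt a b ∨ a = b := MM_basic.lt_succ a b

theorem clt_of_ev {a b : Car} (h : Ev fun n => rep a n < rep b n) : clt a b := h

theorem le_iff_ev {a b : Car} : clt a (cadd b (cst 1)) ↔ Ev fun n => rep a n ≤ rep b n := by
  unfold clt
  apply Ev.congr
  exact (rep_cadd b (cst 1)).mp2 (rep_cst 1) fun n h1 h2 => by rw [h1, h2]; omega

theorem pair_lt {a b k : Car} (h : clt (MM.pair a b) k) : clt a k ∧ clt b k := by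
  constructor
  · exact Ev.mp2 h (rep_pair a b) fun n h1 h2 => by
      rw [h2] at h1; exact lt_of_le_of_lt (le_pr_left _ _) h1
  · exact Ev.mp2 h (rep_pair a b) fun n h1 h2 => by
      rw [h2] at h1; exact lt_of_le_of_lt (le_pr_right _ _) h1

theorem le_pair (a b : Car) : clt a (cadd (MM.pair a b) (cst 1)) ∧ clt b (cadd (MM.pair a b) (cst 1)) := by
  rw [le_iff_ev, le_iff_ev]
  exact ⟨(rep_pair a b).mp fun n h => by rw [h]; exact le_pr_left _ _,
    (rep_pair a b).mp fun n h => by rw [h]; exact le_pr_right _ _⟩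

theorem clt_trans_le {a b c : Car} (h : clt a (cadd b (cst 1))) (h' : clt b (cadd c (cst 1))) :
    clt a (cadd c (cst 1)) := by
  rw [le_iff_ev] at *
  exact h.mp2 h' fun n h1 h2 => h1.trans h2

theorem clt_trans {a b c : Car} (h : clt a b) (h' : clt b c) : clt a c :=
  Ev.mp2 h h' fun _ h1 h2 => h1.trans h2

theorem memF_iff {p q r : ℕ} {t : Tm} (ht : t.Fresh 8) (hq : q ≠ 8) (hr : r ≠ 8) {v : ℕ → Car}
    {V : ℕ → Set Car} : Sat MM v V (memF p q r t) ↔ t.val MM v ∈ SS MM (v p) (v q) (v r) := by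
  unfold memF SS
  rw [sat_and, sat_lt, sat_bEx (fr1 hr)]
  refine and_congr Iff.rfl ?_
  constructor
  · rintro ⟨a, _, h⟩
    rw [sat_eq] at h
    simp only [Tm.val] at h
    rw [val_fresh t ht, update_of_ne hq, update_of_ne hr, update_self] at h
    exact ⟨a, h⟩
  · rintro ⟨a, h⟩
    refine ⟨a, ?_, ?_⟩
    · show clt a (cadd (v r) (cst 1))
      rw [le_iff_ev]
      refine ((car_ext.1 h).and (rep_cmul (MM.add (MM.mul (v q) (MM.add (t.val MM v) MM.one)) MM.one) a)).mp2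
        (hterm (v q) (t.val MM v)) ?_
      rintro n ⟨h1, h2⟩ h3
      have h2' : rep (MM.mul (MM.add (MM.mul (v q) (MM.add (t.val MM v) MM.one)) MM.one) a) n =
        rep (MM.add (MM.mul (v q) (MM.add (t.val MM v) MM.one)) MM.one) n * rep a n := h2
      rw [← h1, h2', h3]
      exact Nat.le_mul_of_pos_left _ (Nat.succ_pos _)
    · rw [sat_eq]
      simp only [Tm.val]
      rw [val_fresh t ht, update_of_ne hq, update_of_ne hr, update_self]
      exact h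

/-! the formulas -/

abbrev vA : Tm := .var 10
abbrev vB : Tm := .var 11
abbrev vX : Tm := .var 12
abbrev vU : Tm := .var 13
abbrev vV : Tm := .var 14
abbrev vW : Tm := .var 15
abbrev mm (t : Tm) : Fm := memF 1 2 3 t
abbrev PP (s t : Tm) : Tm := pairT s t

def F0 : Fm := .imp (mm (PP (PP (PP (nT 0) (nT 0)) (PP vA vX)) vU)) (.eq vU vA)
def F0' : Fm := .imp (mm (PP (PP (PP (nT 0) (.add vA .one)) (PP vB vX)) vU))
  (.imp (mm (PP (PP (PP (nT 0) vA) vX) vW)) (.eq vU vW))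
def F1 : Fm := .imp (mm (PP (PP (PP (nT 1) (nT 0)) vX) vU)) (.eq vU .zero)
def F1' : Fm := .imp (mm (PP (PP (PP (nT 1) (nT 1)) vX) vU)) (.eq vU .one)
def Fop (j : ℕ) (φ : Fm) : Fm := .imp (mm (PP (PP vA vX) vU)) (.imp (mm (PP (PP vB vX) vV))
  (.imp (mm (PP (PP (PP (nT j) (PP vA vB)) vX) vW)) φ))
def F6 : Fm := .imp (mm (PP (PP vA vX) vU)) (.imp (mm (PP (PP (PP (nT 6) vA) vX) vW))
  (iffF (.eq vW .zero) (.neg (.eq vU .zero))))
def F8 : Fm := .imp (mm (PP (PP (PP (nT 8) vA) vX) vW)) (.imp (mm (PP (PP vA (PP vB vX)) vU))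
  (.and (.imp (.eq vW .zero) (.eq vU .zero)) (.imp (.eq vW (.add vB .one)) (.neg (.eq vU .zero)))))
def Fbody : Fm := .and F0 (.and F0' (.and F1 (.and F1' (.and (Fop 2 (.eq vW (.add vU vV)))
  (.and (Fop 3 (.eq vW (.mul vU vV))) (.and (Fop 4 (iffF (.eq vW .zero) (.eq vU vV)))
  (.and (Fop 5 (iffF (.eq vW .zero) (.lt vU vV))) (.and F6
  (.and (Fop 7 (iffF (.eq vW .zero) (.and (.eq vU .zero) (.eq vV .zero)))) F8)))))))))
def Fgood : Fm := bAll 10 (.var 1) (bAll 11 (.var 1) (bAll 12 (.var 1) (bAll 13 (.var 1)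
  (bAll 14 (.var 1) (bAll 15 (.var 1) Fbody)))))

theorem Fresh_pairT {i : ℕ} {s t : Tm} (hs : s.Fresh i) (ht : t.Fresh i) : (pairT s t).Fresh i :=
  ⟨⟨⟨hs, ht⟩, ⟨hs, ht⟩⟩, hs⟩

theorem mm_iff {t : Tm} (ht : t.Fresh 8) {v : ℕ → Car} {V : ℕ → Set Car} :
    Sat MM v V (mm t) ↔ t.val MM v ∈ SS MM (v 1) (v 2) (v 3) :=
  memF_iff ht (by omega) (by omega)

/-- the conditions with all quantifiers bounded, in one block -/
def GB (k : Car) (S : Set Car) : Prop := ∀ a, clt a k → ∀ b, clt b k → ∀ x, clt x k → ∀ u, clt u k →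
  ∀ v, clt v k → ∀ w, clt w k →
    (MM.pair (MM.pair (MM.pair (num MM 0) (num MM 0)) (MM.pair a x)) u ∈ S → u = a) ∧
    (MM.pair (MM.pair (MM.pair (num MM 0) (MM.add a MM.one)) (MM.pair b x)) u ∈ S →
      MM.pair (MM.pair (MM.pair (num MM 0) a) x) w ∈ S → u = w) ∧
    (MM.pair (MM.pair (MM.pair (num MM 1) (num MM 0)) x) u ∈ S → u = MM.zero) ∧
    (MM.pair (MM.pair (MM.pair (num MM 1) (num MM 1)) x) u ∈ S → u = MM.one) ∧
    (MM.pair (MM.pair a x) u ∈ S → MM.pair (MM.pair b x) v ∈ S →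
      MM.pair (MM.pair (MM.pair (num MM 2) (MM.pair a b)) x) w ∈ S → w = MM.add u v) ∧
    (MM.pair (MM.pair a x) u ∈ S → MM.pair (MM.pair b x) v ∈ S →
      MM.pair (MM.pair (MM.pair (num MM 3) (MM.pair a b)) x) w ∈ S → w = MM.mul u v) ∧
    (MM.pair (MM.pair a x) u ∈ S → MM.pair (MM.pair b x) v ∈ S →
      MM.pair (MM.pair (MM.pair (num MM 4) (MM.pair a b)) x) w ∈ S → (w = MM.zero ↔ u = v)) ∧
    (MM.pair (MM.pair a x) u ∈ S → MM.pair (MM.pair b x) v ∈ S →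
      MM.pair (MM.pair (MM.pair (num MM 5) (MM.pair a b)) x) w ∈ S → (w = MM.zero ↔ MM.lt u v)) ∧
    (MM.pair (MM.pair a x) u ∈ S →
      MM.pair (MM.pair (MM.pair (num MM 6) a) x) w ∈ S → (w = MM.zero ↔ ¬ u = MM.zero)) ∧
    (MM.pair (MM.pair a x) u ∈ S → MM.pair (MM.pair b x) v ∈ S →
      MM.pair (MM.pair (MM.pair (num MM 7) (MM.pair a b)) x) w ∈ S →
        (w = MM.zero ↔ u = MM.zero ∧ v = MM.zero)) ∧
    (MM.pair (MM.pair (MM.pair (num MM 8) a) x) w ∈ S →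
      MM.pair (MM.pair a (MM.pair b x)) u ∈ S →
        (w = MM.zero → u = MM.zero) ∧ (w = MM.add b MM.one → ¬ u = MM.zero))

theorem Fgood_iff {v : ℕ → Car} {V : ℕ → Set Car} :
    Sat MM v V Fgood ↔ GB (v 1) (SS MM (v 1) (v 2) (v 3)) := by
  unfold Fgood GB
  rw [sat_bAll (fr (by omega))]
  refine forall_congr' fun a => forall_congr' fun _ => ?_
  rw [sat_bAll (fr (by omega))]
  refine forall_congr' fun b => ?_
  refine imp_congr Iff.rfl ?_
  rw [sat_bAll (fr (by omega))]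
  refine forall_congr' fun x => ?_
  refine imp_congr Iff.rfl ?_
  rw [sat_bAll (fr (by omega))]
  refine forall_congr' fun u => ?_
  refine imp_congr Iff.rfl ?_
  rw [sat_bAll (fr (by omega))]
  refine forall_congr' fun v' => ?_
  refine imp_congr Iff.rfl ?_
  rw [sat_bAll (fr (by omega))]
  refine forall_congr' fun w => ?_
  refine imp_congr Iff.rfl ?_
  have f10 : vA.Fresh 8 := fr (by omega)
  have f11 : vB.Fresh 8 := fr (by omega)
  have f12 : vX.Fresh 8 := fr (by omega)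
  have f13 : vU.Fresh 8 := fr (by omega)
  have f14 : vV.Fresh 8 := fr (by omega)
  have f15 : vW.Fresh 8 := fr (by omega)
  have fn : ∀ j, (nT j).Fresh 8 := nT_fresh 8
  have pf : ∀ {s t : Tm}, s.Fresh 8 → t.Fresh 8 → (PP s t).Fresh 8 := fun h1 h2 => Fresh_pairT h1 h2
  unfold Fbody F0 F0' F1 F1' Fop F6 F8
  simp only [sat_and, sat_imp, sat_iffF, sat_neg, sat_eq, sat_lt]
  rw [mm_iff (pf (pf (pf (fn 0) (fn 0)) (pf f10 f12)) f13),
    mm_iff (pf (pf (pf (fn 0) (show (Tm.add vA .one).Fresh 8 from ⟨f10, trivial⟩)) (pf f11 f12)) f13),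
    mm_iff (pf (pf (pf (fn 0) f10) f12) f15),
    mm_iff (pf (pf (pf (fn 1) (fn 0)) f12) f13),
    mm_iff (pf (pf (pf (fn 1) (fn 1)) f12) f13),
    mm_iff (pf (pf f10 f12) f13), mm_iff (pf (pf f11 f12) f14),
    mm_iff (pf (pf (pf (fn 2) (pf f10 f11)) f12) f15),
    mm_iff (pf (pf (pf (fn 3) (pf f10 f11)) f12) f15),
    mm_iff (pf (pf (pf (fn 4) (pf f10 f11)) f12) f15),
    mm_iff (pf (pf (pf (fn 5) (pf f10 f11)) f12) f15),
    mm_iff (pf (pf (pf (fn 6) f10) f12) f15),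
    mm_iff (pf (pf (pf (fn 7) (pf f10 f11)) f12) f15),
    mm_iff (pf (pf (pf (fn 8) f10) f12) f15),
    mm_iff (pf (pf f10 (pf f11 f12)) f13)]
  simp only [val_pairT, nT_val, Tm.val]
  simp only [update_self, update_of_ne, ne_eq, Nat.reduceEqDiff, not_false_eq_true]

end Pool.Agent.Helper317.TP
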