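import Pool.Agent.Helper317.TP.Tree

/-!
The tree is defined by a bounded formula without parameters.
-/

namespace Pool.Agent.Helper317.TP

open Function Filter SOA

theorem GB_iff {k : Car} {S : Set Car} (hS : ∀ i ∈ S, clt i k) : GB k S ↔ GoodS MM S := by
  have l1 : ∀ {a b}, MM.pair a b ∈ S → clt a k ∧ clt b k := fun h => pair_lt (hS _ h)
  constructor
  · intro h
    refine ⟨?_, ?_, ?_, ?_, ?_, ?_, ?_, ?_, ?_, ?_, ?_⟩
    · intro y x u h1
      have hu := (l1 h1).2
      have hyx := pair_lt (pair_lt (l1 h1).1).2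
      exact (h y hyx.1 y hyx.1 x hyx.2 u hu u hu u hu).1 h1
    · intro i y x u w h1 h2
      have hu := (l1 h1).2
      have hw := (l1 h2).2
      have hyx := pair_lt (pair_lt (l1 h1).1).2
      have hi := (pair_lt (pair_lt (l1 h2).1).1).2
      exact (h i hi y hyx.1 x hyx.2 u hu u hu w hw).2.1 h1 h2
    · intro x u h1
      have hu := (l1 h1).2
      have hx := (pair_lt (l1 h1).1).2
      exact (h x hx x hx x hx u hu u hu u hu).2.2.1 h1
    · intro x u h1
      have hu := (l1 h1).2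
      have hx := (pair_lt (l1 h1).1).2
      exact (h x hx x hx x hx u hu u hu u hu).2.2.2.1 h1
    · intro a b x u v w h1 h2 h3
      have ha := pair_lt (l1 h1).1
      have hb := pair_lt (l1 h2).1
      exact (h a ha.1 b hb.1 x ha.2 u (l1 h1).2 v (l1 h2).2 w (l1 h3).2).2.2.2.2.1 h1 h2 h3
    · intro a b x u v w h1 h2 h3
      have ha := pair_lt (l1 h1).1
      have hb := pair_lt (l1 h2).1
      exact (h a ha.1 b hb.1 x ha.2 u (l1 h1).2 v (l1 h2).2 w (l1 h3).2).2.2.2.2.2.1 h1 h2 h3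
    · intro a b x u v w h1 h2 h3
      have ha := pair_lt (l1 h1).1
      have hb := pair_lt (l1 h2).1
      exact (h a ha.1 b hb.1 x ha.2 u (l1 h1).2 v (l1 h2).2 w (l1 h3).2).2.2.2.2.2.2.1 h1 h2 h3
    · intro a b x u v w h1 h2 h3
      have ha := pair_lt (l1 h1).1
      have hb := pair_lt (l1 h2).1
      exact (h a ha.1 b hb.1 x ha.2 u (l1 h1).2 v (l1 h2).2 w (l1 h3).2).2.2.2.2.2.2.2.1 h1 h2 h3
    · intro a x u w h1 h2
      have ha := pair_lt (l1 h1).1
      exact (h a ha.1 a ha.1 x ha.2 u (l1 h1).2 u (l1 h1).2 w (l1 h2).2).2.2.2.2.2.2.2.2.1 h1 h2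
    · intro a b x u v w h1 h2 h3
      have ha := pair_lt (l1 h1).1
      have hb := pair_lt (l1 h2).1
      exact (h a ha.1 b hb.1 x ha.2 u (l1 h1).2 v (l1 h2).2 w (l1 h3).2).2.2.2.2.2.2.2.2.2.1 h1 h2 h3
    · intro a y x u w h1 h2
      have ha := (pair_lt (l1 h2).1)
      have hyx := pair_lt ha.2
      exact (h a ha.1 y hyx.1 x hyx.2 u (l1 h2).2 u (l1 h2).2 w (l1 h1).2).2.2.2.2.2.2.2.2.2.2 h1 h2
  · intro h a _ b _ x _ u _ v _ w _
    exact ⟨h.c0 a x u, h.c0' a b x u w, h.c1 x u, h.c1' x u, h.c2 a b x u v w, h.c3 a b x u v w,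
      h.c4 a b x u v w, h.c5 a b x u v w, h.c6 a x u w, h.c7 a b x u v w, h.c8 a b x u w⟩

/-- the triple is the least one coding its set -/
def Fleast : Fm := bAll 5 (.add (.var 0) .one) (bAll 6 (.add (.var 0) .one) (bAll 7 (.add (.var 0) .one)
  (.imp (.lt (PP (.var 5) (PP (.var 6) (.var 7))) (.var 0))
    (bEx 9 (.add (.var 1) (.var 5)) (.neg (iffF (memF 1 2 3 (.var 9)) (memF 5 6 7 (.var 9))))))))

/-- the coded set is the graph of a function on the numbers below the variable 4 -/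
def Ffun : Fm := .and (bAll 10 (.var 4) (bEx 13 (.var 1) (mm (PP vA vU))))
  (.and (bAll 10 (.var 1) (.imp (mm vA) (bEx 11 (.var 4) (bEx 13 (.var 1) (.eq vA (PP vB vU))))))
    (bAll 10 (.var 1) (bAll 13 (.var 1) (bAll 14 (.var 1)
      (.imp (mm (PP vA vU)) (.imp (mm (PP vA vV)) (.eq vU vV)))))))

def FT : Fm := bEx 1 (.add (.var 0) .one) (bEx 2 (.add (.var 0) .one) (bEx 3 (.add (.var 0) .one)
  (.and (.eq (.var 0) (PP (.var 1) (PP (.var 2) (.var 3)))) (.and Fleast
    (bEx 4 (.add (.var 1) .one) (.and Ffun Fgood))))))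

theorem Fleast_iff {v : ℕ → Car} {V : ℕ → Set Car} (hc : v 0 = MM.pair (v 1) (MM.pair (v 2) (v 3))) :
    Sat MM v V Fleast ↔ ∀ c', MM.PreCode c' (SS MM (v 1) (v 2) (v 3)) → ¬ clt c' (v 0) := by
  have f9 : (Tm.var 9).Fresh 8 := fr (by omega)
  have key : Sat MM v V Fleast ↔ ∀ k, clt k (cadd (v 0) (cst 1)) → ∀ m, clt m (cadd (v 0) (cst 1)) →
      ∀ n, clt n (cadd (v 0) (cst 1)) → clt (MM.pair k (MM.pair m n)) (v 0) →
        ∃ i, clt i (cadd (v 1) k) ∧ ¬ (i ∈ SS MM (v 1) (v 2) (v 3) ↔ i ∈ SS MM k m n) := by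
    unfold Fleast
    rw [sat_bAll (fr1 (by omega))]
    refine forall_congr' fun k => imp_congr Iff.rfl ?_
    rw [sat_bAll (fr1 (by omega))]
    refine forall_congr' fun m => imp_congr (by simp only [Tm.val]; rw [update_of_ne (by omega)]) ?_
    rw [sat_bAll (fr1 (by omega))]
    refine forall_congr' fun n => imp_congr (by
      simp only [Tm.val]; rw [update_of_ne (by omega), update_of_ne (by omega)]) ?_
    rw [sat_imp, sat_lt]
    refine imp_congr (by
      simp only [Tm.val, val_pairT]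
      simp only [update_self, update_of_ne, ne_eq, Nat.reduceEqDiff, not_false_eq_true]) ?_
    rw [sat_bEx (show (Tm.add (.var 1) (.var 5)).Fresh 9 from ⟨fr (by omega), fr (by omega)⟩)]
    refine exists_congr fun i => and_congr (by
      simp only [Tm.val]
      simp only [update_self, update_of_ne, ne_eq, Nat.reduceEqDiff, not_false_eq_true]) ?_
    rw [sat_neg, sat_iffF, memF_iff f9 (by omega) (by omega), memF_iff f9 (by omega) (by omega)]
    simp only [Tm.val]
    simp only [update_self, update_of_ne, ne_eq, Nat.reduceEqDiff, not_false_eq_true]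
  rw [key]
  constructor
  · intro h c' hc' hlt
    obtain ⟨k, m, n, rfl, hi⟩ := hc'
    have hle : ∀ x, clt x (cadd (MM.pair k (MM.pair m n)) (cst 1)) → clt x (cadd (v 0) (cst 1)) := by
      intro x hx
      exact clt_trans_le hx (clt_succ.2 (Or.inl hlt))
    obtain ⟨i, _, hne⟩ := h k (hle _ (le_pair _ _).1) m
      (hle _ (clt_trans_le (le_pair m n).1 (le_pair k _).2)) n
      (hle _ (clt_trans_le (le_pair m n).2 (le_pair k _).2)) hlt
    exact hne (hi i)
  · intro h k _ m _ n _ hlt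
    by_contra hcon
    push Not at hcon
    apply h (MM.pair k (MM.pair m n)) ⟨k, m, n, rfl, fun i => ?_⟩ hlt
    by_cases hi : clt i (cadd (v 1) k)
    · exact hcon i hi
    · have hge : ∀ a b : Car, clt i a → clt i (cadd a b) := by
        intro a b hia
        exact Ev.mp2 hia (rep_cadd a b) fun n h1 h2 => by rw [h2]; omega
      have hge' : ∀ a b : Car, clt i b → clt i (cadd a b) := by
        intro a b hia
        exact Ev.mp2 hia (rep_cadd a b) fun n h1 h2 => by rw [h2]; omega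
      constructor
      · intro h1; exact absurd (hge _ _ h1.1) hi
      · intro h1; exact absurd (hge' _ _ h1.1) hi

theorem Ffun_iff {v : ℕ → Car} {V : ℕ → Set Car} :
    Sat MM v V Ffun ↔ ∃ f : Car → Car, SS MM (v 1) (v 2) (v 3) = MM.Graph f (v 4) := by
  have f10 : vA.Fresh 8 := fr (by omega)
  have f13 : vU.Fresh 8 := fr (by omega)
  have f14 : vV.Fresh 8 := fr (by omega)
  have pf : ∀ {s t : Tm}, s.Fresh 8 → t.Fresh 8 → (PP s t).Fresh 8 := fun h1 h2 => Fresh_pairT h1 h2
  set S := SS MM (v 1) (v 2) (v 3) with hS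
  have key : Sat MM v V Ffun ↔ (∀ x, clt x (v 4) → ∃ u, clt u (v 1) ∧ MM.pair x u ∈ S) ∧
      (∀ i, clt i (v 1) → i ∈ S → ∃ x, clt x (v 4) ∧ ∃ u, clt u (v 1) ∧ i = MM.pair x u) ∧
      (∀ x, clt x (v 1) → ∀ u, clt u (v 1) → ∀ u', clt u' (v 1) → MM.pair x u ∈ S →
        MM.pair x u' ∈ S → u = u') := by
    unfold Ffun
    rw [sat_and, sat_and]
    refine and_congr ?_ (and_congr ?_ ?_)
    · rw [sat_bAll (fr (by omega))]
      refine forall_congr' fun x => imp_congr Iff.rfl ?_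
      rw [sat_bEx (fr (by omega))]
      refine exists_congr fun u => and_congr (by
        simp only [Tm.val]; rw [update_of_ne (by omega)]) ?_
      rw [mm_iff (pf f10 f13)]
      simp only [Tm.val, val_pairT]
      simp only [update_self, update_of_ne, ne_eq, Nat.reduceEqDiff, not_false_eq_true]
      exact Iff.rfl
    · rw [sat_bAll (fr (by omega))]
      refine forall_congr' fun i => imp_congr Iff.rfl ?_
      rw [sat_imp, mm_iff f10]
      refine imp_congr (by
        simp only [Tm.val]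
        simp only [update_self, update_of_ne, ne_eq, Nat.reduceEqDiff, not_false_eq_true]
        exact Iff.rfl) ?_
      rw [sat_bEx (fr (by omega))]
      refine exists_congr fun x => and_congr (by
        simp only [Tm.val]; rw [update_of_ne (by omega)]) ?_
      rw [sat_bEx (fr (by omega))]
      refine exists_congr fun u => and_congr (by
        simp only [Tm.val]
        simp only [update_self, update_of_ne, ne_eq, Nat.reduceEqDiff, not_false_eq_true]) ?_
      rw [sat_eq]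
      simp only [Tm.val, val_pairT]
      simp only [update_self, update_of_ne, ne_eq, Nat.reduceEqDiff, not_false_eq_true]
    · rw [sat_bAll (fr (by omega))]
      refine forall_congr' fun x => imp_congr Iff.rfl ?_
      rw [sat_bAll (fr (by omega))]
      refine forall_congr' fun u => imp_congr (by
        simp only [Tm.val]; rw [update_of_ne (by omega)]) ?_
      rw [sat_bAll (fr (by omega))]
      refine forall_congr' fun u' => imp_congr (by
        simp only [Tm.val]
        simp only [update_self, update_of_ne, ne_eq, Nat.reduceEqDiff, not_false_eq_true]) ?_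
      rw [sat_imp, sat_imp, mm_iff (pf f10 f13), mm_iff (pf f10 f14), sat_eq]
      simp only [Tm.val, val_pairT]
      simp only [update_self, update_of_ne, ne_eq, Nat.reduceEqDiff, not_false_eq_true]
      exact Iff.rfl
  rw [key]
  constructor
  · rintro ⟨h1, h2, h3⟩
    classical
    refine ⟨fun x => if h : clt x (v 4) then (h1 x h).choose else cst 0, ?_⟩
    have hf : ∀ x (h : clt x (v 4)), (if h : clt x (v 4) then (h1 x h).choose else cst 0) = (h1 x h).choose :=
      fun x h => dif_pos h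
    ext i
    constructor
    · intro hi
      obtain ⟨x, hx, u, hu, rfl⟩ := h2 i hi.1 hi
      refine ⟨x, hx, ?_⟩
      simp only []
      rw [hf x hx]
      obtain ⟨g1, g2⟩ := (h1 x hx).choose_spec
      rw [h3 x (pair_lt hi.1).1 u hu _ g1 hi g2]
    · rintro ⟨x, hx, rfl⟩
      simp only []
      rw [hf x hx]
      exact (h1 x hx).choose_spec.2
  · rintro ⟨f, hf⟩
    refine ⟨fun x hx => ?_, fun i hi hiS => ?_, fun x hx u hu u' hu' h1 h2 => ?_⟩
    · have : MM.pair x (f x) ∈ S := by rw [hf]; exact ⟨x, hx, rfl⟩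
      exact ⟨f x, (pair_lt this.1).2, this⟩
    · have hiS' := hiS
      rw [hf] at hiS
      obtain ⟨x, hx, rfl⟩ := hiS
      exact ⟨x, hx, f x, (pair_lt hi).2, rfl⟩
    · rw [hf] at h1 h2
      obtain ⟨y, _, h3⟩ := h1
      obtain ⟨z, _, h4⟩ := h2
      obtain ⟨rfl, rfl⟩ := pair_inj h3
      obtain ⟨rfl, rfl⟩ := pair_inj h4
      rfl

theorem FT_iff {v : ℕ → Car} {V : ℕ → Set Car} : Sat MM v V FT ↔ v 0 ∈ TT MM := by
  have key : Sat MM v V FT ↔ ∃ k, clt k (cadd (v 0) (cst 1)) ∧ ∃ m, clt m (cadd (v 0) (cst 1)) ∧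
      ∃ n, clt n (cadd (v 0) (cst 1)) ∧ (v 0 = MM.pair k (MM.pair m n) ∧
        ((∀ c', MM.PreCode c' (SS MM k m n) → ¬ clt c' (v 0)) ∧
          ∃ s, clt s (cadd k (cst 1)) ∧ ((∃ f : Car → Car, SS MM k m n = MM.Graph f s) ∧
            GoodS MM (SS MM k m n)))) := by
    unfold FT
    rw [sat_bEx (fr1 (by omega))]
    refine exists_congr fun k => and_congr Iff.rfl ?_
    rw [sat_bEx (fr1 (by omega))]
    refine exists_congr fun m => and_congr (by
      simp only [Tm.val]; rw [update_of_ne (by omega)]) ?_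
    rw [sat_bEx (fr1 (by omega))]
    refine exists_congr fun n => and_congr (by
      simp only [Tm.val]
      simp only [update_self, update_of_ne, ne_eq, Nat.reduceEqDiff, not_false_eq_true]) ?_
    rw [sat_and, sat_and]
    have e0 : (update (update (update v 1 k) 2 m) 3 n) 0 = v 0 := by
      rw [update_of_ne (by omega), update_of_ne (by omega), update_of_ne (by omega)]
    have e1 : (update (update (update v 1 k) 2 m) 3 n) 1 = k := by
      rw [update_of_ne (by omega), update_of_ne (by omega), update_self]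
    have e2 : (update (update (update v 1 k) 2 m) 3 n) 2 = m := by
      rw [update_of_ne (by omega), update_self]
    have e3 : (update (update (update v 1 k) 2 m) 3 n) 3 = n := update_self _ _ _
    have hA : Sat MM (update (update (update v 1 k) 2 m) 3 n) V
        (.eq (.var 0) (PP (.var 1) (PP (.var 2) (.var 3)))) ↔ v 0 = MM.pair k (MM.pair m n) := by
      rw [sat_eq, val_pairT, val_pairT]
      simp only [Tm.val]
      rw [e0, e1, e2, e3]
    rw [hA]
    refine and_congr_right fun hc => and_congr ?_ ?_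
    · rw [Fleast_iff (by rw [e0, e1, e2, e3]; exact hc), e0, e1, e2, e3]
    · rw [sat_bEx (fr1 (by omega))]
      refine exists_congr fun s => and_congr (by
        simp only [Tm.val]; rw [e1]) ?_
      rw [sat_and, Ffun_iff, Fgood_iff]
      rw [update_self, update_of_ne (by omega : (1:ℕ) ≠ 4), update_of_ne (by omega : (2:ℕ) ≠ 4),
        update_of_ne (by omega : (3:ℕ) ≠ 4), e1, e2, e3]
      rw [GB_iff (fun i hi => hi.1)]
  rw [key]
  constructor
  · rintro ⟨k, _, m, _, n, _, hc, hl, s, _, ⟨f, hf⟩, hg⟩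
    refine ⟨s, f, ⟨⟨k, m, n, hc, fun i => ?_⟩, fun c' hc' => ?_⟩, ?_⟩
    · rw [← hf]; exact Iff.rfl
    · rw [← hf] at hc'; exact hl c' hc'
    · rw [← hf]; exact hg
  · rintro ⟨s, f, ⟨⟨k, m, n, hc, hi⟩, hl⟩, hg⟩
    have hS : SS MM k m n = MM.Graph f s := by
      ext i; exact (hi i).symm
    refine ⟨k, ?_, m, ?_, n, ?_, hc, ?_, s, ?_, ⟨f, hS⟩, ?_⟩
    · rw [hc]; exact (le_pair _ _).1
    · rw [hc]; exact clt_trans_le (le_pair m n).1 (le_pair k _).2
    · rw [hc]; exact clt_trans_le (le_pair m n).2 (le_pair k _).2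
    · rw [hS]; exact hl
    · -- `s ≤ k`
      by_contra hcon
      have hks : clt k s := by
        rw [le_iff_ev] at hcon
        rw [← ev_not] at hcon
        exact Ev.mp hcon fun n h => not_le.1 h
      have : MM.pair k (f k) ∈ SS MM k m n := by rw [hS]; exact ⟨k, hks, rfl⟩
      have h1 := (pair_lt this.1).1
      have : Ev fun _ => False := Ev.mp h1 fun n hn => lt_irrefl _ hn
      exact ev_const.1 this
    · rw [hS]; exact hg

theorem d0_mm {t : Tm} : IsDelta0 (mm t) := d0_memF (by omega)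

theorem d0_FT : IsDelta0 FT := by
  unfold FT
  refine d0_bEx (fr1 (by omega)) (d0_bEx (fr1 (by omega)) (d0_bEx (fr1 (by omega)) (.and (.eq _ _)
    (.and ?_ (d0_bEx (fr1 (by omega)) (.and ?_ ?_))))))
  · unfold Fleast
    refine d0_bAll (fr1 (by omega)) (d0_bAll (fr1 (by omega)) (d0_bAll (fr1 (by omega))
      (d0_imp (.lt _ _) (d0_bEx (show (Tm.add (.var 1) (.var 5)).Fresh 9 from ⟨fr (by omega), fr (by omega)⟩) (.neg (d0_iff (d0_memF (by omega))
        (d0_memF (by omega))))))))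
  · unfold Ffun
    refine .and (d0_bAll (fr (by omega)) (d0_bEx (fr (by omega)) d0_mm)) (.and
      (d0_bAll (fr (by omega)) (d0_imp d0_mm (d0_bEx (fr (by omega)) (d0_bEx (fr (by omega)) (.eq _ _)))))
      (d0_bAll (fr (by omega)) (d0_bAll (fr (by omega)) (d0_bAll (fr (by omega)) (d0_imp d0_mm
        (d0_imp d0_mm (.eq _ _)))))))
  · unfold Fgood
    refine d0_bAll (fr (by omega)) (d0_bAll (fr (by omega)) (d0_bAll (fr (by omega))
      (d0_bAll (fr (by omega)) (d0_bAll (fr (by omega)) (d0_bAll (fr (by omega)) ?_)))))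
    unfold Fbody F0 F0' F1 F1' Fop F6 F8
    have h1 := fun (t : Tm) => d0_mm (t := t)
    refine .and (d0_imp (h1 _) (.eq _ _)) (.and (d0_imp (h1 _) (d0_imp (h1 _) (.eq _ _)))
      (.and (d0_imp (h1 _) (.eq _ _)) (.and (d0_imp (h1 _) (.eq _ _)) (.and
      (d0_imp (h1 _) (d0_imp (h1 _) (d0_imp (h1 _) (.eq _ _)))) (.and
      (d0_imp (h1 _) (d0_imp (h1 _) (d0_imp (h1 _) (.eq _ _)))) (.and
      (d0_imp (h1 _) (d0_imp (h1 _) (d0_imp (h1 _) (d0_iff (.eq _ _) (.eq _ _))))) (.and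
      (d0_imp (h1 _) (d0_imp (h1 _) (d0_imp (h1 _) (d0_iff (.eq _ _) (.lt _ _))))) (.and
      (d0_imp (h1 _) (d0_imp (h1 _) (d0_iff (.eq _ _) (.neg (.eq _ _))))) (.and
      (d0_imp (h1 _) (d0_imp (h1 _) (d0_imp (h1 _) (d0_iff (.eq _ _) (.and (.eq _ _) (.eq _ _))))))
      (d0_imp (h1 _) (d0_imp (h1 _) (.and (d0_imp (.eq _ _) (.eq _ _))
        (d0_imp (.eq _ _) (.neg (.eq _ _)))))))))))))))

theorem noSet_FT : FT.NoSet := by
  simp [FT, Fleast, Ffun, Fgood, Fbody, F0, F0', F1, F1', Fop, F6, F8, bEx, bAll, memF, iffF, Fm.imp,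
    Fm.NoSet, mm]

theorem TT_pi : MM.Pi1Set (TT MM) := by
  refine ⟨.all 20 FT, ⟨20, FT, rfl, d0_FT⟩, noSet_FT, fun v V c => ?_⟩
  rw [sat_all]
  have h : ∀ a : Car, Sat MM (update (update v 0 c) 20 a) V FT ↔ c ∈ TT MM := by
    intro a
    rw [FT_iff, update_of_ne (by omega), update_self]
  constructor
  · intro hc a; exact (h a).2 hc
  · intro hc; exact (h (cst 0)).1 (hc _)

theorem code_inj {c : Car} {A B : Set Car} (hA : MM.PreCode c A) (hB : MM.PreCode c B) : A = B := by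
  obtain ⟨k, m, n, h1, h2⟩ := hA
  obtain ⟨k', m', n', h1', h2'⟩ := hB
  rw [h1] at h1'
  obtain ⟨rfl, h3⟩ := pair_inj h1'
  obtain ⟨rfl, rfl⟩ := pair_inj h3
  ext i
  rw [h2, h2']

theorem TT_tree : MM.IsTree (TT MM) := by
  constructor
  · rintro c ⟨s, f, h, _⟩
    exact ⟨s, f, h⟩
  · rintro c ⟨s, f, h, hg⟩ s1 f1 h1 s' hs' c' hc'
    refine ⟨s', f1, hc', hg.mono ?_⟩
    have : MM.Graph f s = MM.Graph f1 s1 := code_inj h.1 h1.1
    rw [this]
    rintro i ⟨x, hx, rfl⟩
    exact ⟨x, clt_trans hx hs', rfl⟩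

/-- a path satisfies the conditions -/
theorem path_good {h : Car → Car} (hp : MM.IsPath (TT MM) h) (s : Car) : GoodS MM (MM.Graph h s) := by
  obtain ⟨c, ⟨s', f, hc, hg⟩, hc'⟩ := hp s
  have : MM.Graph f s' = MM.Graph h s := code_inj hc.1 hc'.1
  rw [← this]
  exact hg

/-- the distinguished path satisfies the conditions -/
theorem num_rep (j : ℕ) : Ev fun n => rep (num MM j) n = j := by
  induction j with
  | zero => exact rep_cst 0
  | succ j ih =>
    cases j with
    | zero => exact rep_cst 1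
    | succ j =>
      have h1 : num MM (j + 1 + 1) = cadd (num MM (j + 1)) (cst 1) := rfl
      rw [h1]
      exact ((rep_cadd _ _).and ih).mp2 (rep_cst 1) fun n h2 h3 => by rw [h2.1, h2.2, h3]

theorem gP_good (s : Car) : GoodS MM (MM.Graph gP s) := by
  have key : ∀ x u, MM.pair x u ∈ MM.Graph gP s → Ev fun n => rep u n = Zf (rep x n) := by
    rintro x u ⟨y, _, h⟩
    obtain ⟨rfl, rfl⟩ := pair_inj h
    exact rep_gP x
  have e0 : ∀ u : Car, u = MM.zero ↔ Ev fun n => rep u n = 0 := by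
    intro u
    rw [car_ext]
    apply Ev.congr
    exact (rep_cst 0).mp fun n h => by rw [show rep MM.zero n = rep (cst 0) n from rfl, h]
  have ea : ∀ u v : Car, Ev fun n => rep (MM.add u v) n = rep u n + rep v n := fun u v => rep_cadd u v
  have em : ∀ u v : Car, Ev fun n => rep (MM.mul u v) n = rep u n * rep v n := fun u v => rep_cmul u v
  have e1 : Ev fun n => rep MM.one n = 1 := rep_cst 1
  have p2 : ∀ a x : Car, Ev fun n => rep (MM.pair a x) n = pr (rep a n) (rep x n) := rep_pair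
  have p3 : ∀ j (a x : Car), Ev fun n => rep (MM.pair (MM.pair (num MM j) a) x) n =
      pr (pr j (rep a n)) (rep x n) := by
    intro j a x
    refine ((p2 (MM.pair (num MM j) a) x).and (p2 (num MM j) a)).mp2 (num_rep j) ?_
    rintro n ⟨h1, h2⟩ h3
    rw [h1, h2, h3]
  have p4 : ∀ j (a b x : Car), Ev fun n => rep (MM.pair (MM.pair (num MM j) (MM.pair a b)) x) n =
      pr (pr j (pr (rep a n) (rep b n))) (rep x n) := by
    intro j a b x
    exact (p3 j (MM.pair a b) x).mp2 (p2 a b) fun n h1 h2 => by rw [h1, h2]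
  refine ⟨?_, ?_, ?_, ?_, ?_, ?_, ?_, ?_, ?_, ?_, ?_⟩
  · intro y x u h
    rw [car_ext]
    refine ((key _ _ h).and (p3 0 (num MM 0) (MM.pair y x))).mp2 ((num_rep 0).and (p2 y x)) ?_
    rintro n ⟨h1, h2⟩ ⟨h3, h4⟩
    rw [h1, h2, h3, h4, Z0]
  · intro i y x u w h h'
    rw [car_ext]
    refine (((key _ _ h).and (p3 0 (MM.add i MM.one) (MM.pair y x))).and
      ((key _ _ h').and (p3 0 i x))).mp2 ((p2 y x).and ((ea i MM.one).and e1)) ?_
    rintro n ⟨⟨h1, h2⟩, h3, h4⟩ ⟨h5, h6, h7⟩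
    rw [h1, h2, h3, h4, h5, h6, h7, Z0']
  · intro x u h
    rw [e0]
    refine ((key _ _ h).and (p3 1 (num MM 0) x)).mp2 (num_rep 0) ?_
    rintro n ⟨h1, h2⟩ h3
    rw [h1, h2, h3, Z1]
  · intro x u h
    rw [car_ext]
    refine ((key _ _ h).and (p3 1 (num MM 1) x)).mp2 ((num_rep 1).and e1) ?_
    rintro n ⟨h1, h2⟩ ⟨h3, h4⟩
    rw [h1, h2, h3, h4, Z1']
  · intro a b x u v w h h' h''
    rw [car_ext]
    refine (((key _ _ h).and (key _ _ h')).and ((key _ _ h'').and (p4 2 a b x))).mp2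
      ((p2 a x).and ((p2 b x).and (ea u v))) ?_
    rintro n ⟨⟨h1, h2⟩, h3, h4⟩ ⟨h5, h6, h7⟩
    rw [h3, h4, h7, h1, h2, h5, h6, Z2]
  · intro a b x u v w h h' h''
    rw [car_ext]
    refine (((key _ _ h).and (key _ _ h')).and ((key _ _ h'').and (p4 3 a b x))).mp2
      ((p2 a x).and ((p2 b x).and (em u v))) ?_
    rintro n ⟨⟨h1, h2⟩, h3, h4⟩ ⟨h5, h6, h7⟩
    rw [h3, h4, h7, h1, h2, h5, h6, Z3]
  · intro a b x u v w h h' h''
    rw [e0, car_ext]
    apply Ev.congr
    refine (((key _ _ h).and (key _ _ h')).and ((key _ _ h'').and (p4 4 a b x))).mp2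
      ((p2 a x).and (p2 b x)) ?_
    rintro n ⟨⟨h1, h2⟩, h3, h4⟩ ⟨h5, h6⟩
    rw [h3, h4, h1, h2, h5, h6, Z4]
  · intro a b x u v w h h' h''
    rw [e0]
    show _ ↔ Ev fun n => rep u n < rep v n
    apply Ev.congr
    refine (((key _ _ h).and (key _ _ h')).and ((key _ _ h'').and (p4 5 a b x))).mp2
      ((p2 a x).and (p2 b x)) ?_
    rintro n ⟨⟨h1, h2⟩, h3, h4⟩ ⟨h5, h6⟩
    rw [h3, h4, h1, h2, h5, h6, Z5]
  · intro a x u w h h'
    rw [Ne, e0, e0, ← ev_not]
    apply Ev.congr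
    refine ((key _ _ h).and (key _ _ h')).mp2 ((p3 6 a x).and (p2 a x)) ?_
    rintro n ⟨h1, h2⟩ ⟨h3, h4⟩
    rw [h2, h3, h1, h4, Z6]
  · intro a b x u v w h h' h''
    rw [e0, e0, e0, ← ev_and]
    apply Ev.congr
    refine (((key _ _ h).and (key _ _ h')).and ((key _ _ h'').and (p4 7 a b x))).mp2
      ((p2 a x).and (p2 b x)) ?_
    rintro n ⟨⟨h1, h2⟩, h3, h4⟩ ⟨h5, h6⟩
    rw [h3, h4, h1, h2, h5, h6, Z7]
  · intro a y x u w h h'
    constructor
    · intro hw
      rw [e0] at hw ⊢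
      refine (((key _ _ h).and (key _ _ h')).and (hw.and (p3 8 a x))).mp2
        ((p2 a (MM.pair y x)).and (p2 y x)) ?_
      rintro n ⟨⟨h1, h2⟩, h3, h4⟩ ⟨h5, h6⟩
      rw [h2, h5, h6]
      apply Z8
      rw [← h4, ← h1, h3]
    · intro hw hu
      rw [e0] at hu
      rw [car_ext] at hw
      have : Ev fun _ => False := by
        refine (((key _ _ h).and (key _ _ h')).and ((hw.and hu).and (p3 8 a x))).mp2
          (((p2 a (MM.pair y x)).and (p2 y x)).and ((ea y MM.one).and e1)) ?_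
        rintro n ⟨⟨h1, h2⟩, ⟨h3, h3'⟩, h4⟩ ⟨⟨h5, h6⟩, h7, h8⟩
        refine Z8' (rep a n) (rep x n) (rep y n) ?_ ?_
        · rw [← h4, ← h1, h3, h7, h8]
        · rw [← h6, ← h5, ← h2, h3']
      exact ev_const.1 this

theorem gP_path : MM.IsPath (TT MM) gP := by
  intro s
  obtain ⟨c, hc⟩ := exists_seqCode s
  exact ⟨c, ⟨s, gP, hc, gP_good s⟩, hc⟩

end Pool.Agent.Helper317.TP
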