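import Pool.Agent.Helper317.Syn

/-!
The value function of codes, in the standard numbers.
-/

namespace Pool.Agent.Helper317.TP

open Function SOA

/-- the standard numbers, without sets -/
abbrev NM : Model := ⟨ℕ, 0, 1, (· + ·), (· * ·), (· < ·), ∅⟩

/-- pairing -/
def pr (a b : ℕ) : ℕ := (a + b) * (a + b) + a

theorem NM_pair (a b : ℕ) : NM.pair a b = pr a b := rfl

theorem pr_inj {a b c d : ℕ} (h : pr a b = pr c d) : a = c ∧ b = d := by
  unfold pr at h
  have h1 : a + b = c + d := by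
    rcases lt_trichotomy (a + b) (c + d) with hlt | heq | hgt
    · exfalso; nlinarith
    · exact heq
    · exfalso; nlinarith
  rw [h1] at h
  constructor <;> omega

theorem le_pr_left (a b : ℕ) : a ≤ pr a b := Nat.le_add_left _ _
theorem le_pr_right (a b : ℕ) : b ≤ pr a b := by
  unfold pr; nlinarith [Nat.zero_le a, Nat.zero_le b, Nat.zero_le (a*b), mul_self_nonneg ((b:ℤ)-1), Nat.le_mul_self b]

theorem lt_pr_right {a b : ℕ} (ha : 1 ≤ a) : b < pr a b := by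
  unfold pr; nlinarith [Nat.zero_le a, Nat.zero_le b, Nat.zero_le (a*b), Nat.le_mul_self b]

open Classical in
/-- first projection -/
noncomputable def p1 (n : ℕ) : ℕ := if h : ∃ a b, n = pr a b then h.choose else 0
open Classical in
/-- second projection -/
noncomputable def p2 (n : ℕ) : ℕ := if h : ∃ a b, n = pr a b then h.choose_spec.choose else 0

theorem p_spec {n : ℕ} (h : ∃ a b, n = pr a b) : n = pr (p1 n) (p2 n) := by
  unfold p1 p2
  rw [dif_pos h, dif_pos h]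
  exact h.choose_spec.choose_spec

@[simp] theorem p1_pr (a b : ℕ) : p1 (pr a b) = a := (pr_inj (p_spec ⟨a, b, rfl⟩)).1.symm
@[simp] theorem p2_pr (a b : ℕ) : p2 (pr a b) = b := (pr_inj (p_spec ⟨a, b, rfl⟩)).2.symm

/-- entries of nested pairs -/
noncomputable def proj : ℕ → ℕ → ℕ
  | 0, x => p1 x
  | i + 1, x => proj i (p2 x)

open Classical in
/-- one unfolding of the value function -/
noncomputable def body (r : ℕ → ℕ → ℕ) (e x : ℕ) : ℕ :=
  if _h : ∃ a b, e = pr a b then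
    (match p1 e with
    | 0 => proj (p2 e) x
    | 1 => if p2 e = 1 then 1 else 0
    | 2 => r (p1 (p2 e)) x + r (p2 (p2 e)) x
    | 3 => r (p1 (p2 e)) x * r (p2 (p2 e)) x
    | 4 => if r (p1 (p2 e)) x = r (p2 (p2 e)) x then 0 else 1
    | 5 => if r (p1 (p2 e)) x < r (p2 (p2 e)) x then 0 else 1
    | 6 => if r (p2 e) x = 0 then 1 else 0
    | 7 => if r (p1 (p2 e)) x = 0 ∧ r (p2 (p2 e)) x = 0 then 0 else 1
    | 8 => if h : ∃ w, r (p2 e) (pr w x) ≠ 0 then Nat.find h + 1 else 0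
    | _ => 0)
  else 0

theorem p1_le (n : ℕ) : p1 n ≤ n := by
  by_cases h : ∃ a b, n = pr a b
  · conv_rhs => rw [p_spec h]
    exact le_pr_left _ _
  · unfold p1; rw [dif_neg h]; exact Nat.zero_le _

theorem p2_le (n : ℕ) : p2 n ≤ n := by
  by_cases h : ∃ a b, n = pr a b
  · conv_rhs => rw [p_spec h]
    exact le_pr_right _ _
  · unfold p2; rw [dif_neg h]; exact Nat.zero_le _

theorem p2_lt {n : ℕ} (h : ∃ a b, n = pr a b) (h1 : 1 ≤ p1 n) : p2 n < n := by
  conv_rhs => rw [p_spec h]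
  exact lt_pr_right h1

theorem body_congr {r r' : ℕ → ℕ → ℕ} {e : ℕ} (h : ∀ c < e, r c = r' c) : body r e = body r' e := by
  funext x
  unfold body
  by_cases he : ∃ a b, e = pr a b
  · rw [dif_pos he, dif_pos he]
    rcases Nat.eq_zero_or_pos (p1 e) with h0 | h0
    · rw [h0]; rfl
    · have h2 := p2_lt he h0
      have h3 : r (p2 e) = r' (p2 e) := h _ h2
      have h4 : r (p1 (p2 e)) = r' (p1 (p2 e)) := h _ (lt_of_le_of_lt (p1_le _) h2)
      have h5 : r (p2 (p2 e)) = r' (p2 (p2 e)) := h _ (lt_of_le_of_lt (p2_le _) h2)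
      rw [h3, h4, h5]
  · rw [dif_neg he, dif_neg he]

/-- approximations -/
noncomputable def tvF : ℕ → ℕ → ℕ → ℕ
  | 0 => fun _ _ => 0
  | n + 1 => body (tvF n)

theorem tvF_stable : ∀ e n m, e < n → e < m → tvF n e = tvF m e := by
  intro e
  induction e using Nat.strong_induction_on with
  | _ e ih =>
    intro n m hn hm
    obtain ⟨n, rfl⟩ := Nat.exists_eq_succ_of_ne_zero (show n ≠ 0 by omega)
    obtain ⟨m, rfl⟩ := Nat.exists_eq_succ_of_ne_zero (show m ≠ 0 by omega)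
    show body (tvF n) e = body (tvF m) e
    exact body_congr fun c hc => ih c hc n m (by omega) (by omega)

/-- the value function -/
noncomputable def tv (e : ℕ) : ℕ → ℕ := tvF (e + 1) e

theorem tv_eq (e : ℕ) : tv e = body tv e := by
  show body (tvF e) e = body tv e
  exact body_congr fun c hc => tvF_stable c e (c + 1) hc (Nat.lt_succ_self c)

theorem tv_pr (a b x : ℕ) : tv (pr a b) x = (match a with
    | 0 => proj b x
    | 1 => if b = 1 then 1 else 0
    | 2 => tv (p1 b) x + tv (p2 b) x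
    | 3 => tv (p1 b) x * tv (p2 b) x
    | 4 => if tv (p1 b) x = tv (p2 b) x then 0 else 1
    | 5 => if tv (p1 b) x < tv (p2 b) x then 0 else 1
    | 6 => if tv b x = 0 then 1 else 0
    | 7 => open Classical in if tv (p1 b) x = 0 ∧ tv (p2 b) x = 0 then 0 else 1
    | 8 => open Classical in if h : ∃ w, tv b (pr w x) ≠ 0 then Nat.find h + 1 else 0
    | _ => 0) := by
  rw [tv_eq]
  unfold body
  rw [dif_pos ⟨a, b, rfl⟩, p1_pr, p2_pr]

open Classical in
/-- the value function with one argument -/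
noncomputable def Zf (u : ℕ) : ℕ := if ∃ a b, u = pr a b then tv (p1 u) (p2 u) else 0

theorem Zf_pr (e x : ℕ) : Zf (pr e x) = tv e x := by
  unfold Zf; rw [if_pos ⟨e, x, rfl⟩, p1_pr, p2_pr]

theorem Z0 (y x : ℕ) : Zf (pr (pr 0 0) (pr y x)) = y := by
  rw [Zf_pr, tv_pr]; simp [proj]
theorem Z0' (i y x : ℕ) : Zf (pr (pr 0 (i + 1)) (pr y x)) = Zf (pr (pr 0 i) x) := by
  rw [Zf_pr, Zf_pr, tv_pr, tv_pr]; simp [proj]
theorem Z1 (x : ℕ) : Zf (pr (pr 1 0) x) = 0 := by rw [Zf_pr, tv_pr]; simp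
theorem Z1' (x : ℕ) : Zf (pr (pr 1 1) x) = 1 := by rw [Zf_pr, tv_pr]; simp
theorem Z2 (a b x : ℕ) : Zf (pr (pr 2 (pr a b)) x) = Zf (pr a x) + Zf (pr b x) := by
  rw [Zf_pr, tv_pr, Zf_pr, Zf_pr]; simp
theorem Z3 (a b x : ℕ) : Zf (pr (pr 3 (pr a b)) x) = Zf (pr a x) * Zf (pr b x) := by
  rw [Zf_pr, tv_pr, Zf_pr, Zf_pr]; simp
theorem Z4 (a b x : ℕ) : Zf (pr (pr 4 (pr a b)) x) = 0 ↔ Zf (pr a x) = Zf (pr b x) := by
  rw [Zf_pr, tv_pr, Zf_pr, Zf_pr]; simp
theorem Z5 (a b x : ℕ) : Zf (pr (pr 5 (pr a b)) x) = 0 ↔ Zf (pr a x) < Zf (pr b x) := by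
  rw [Zf_pr, tv_pr, Zf_pr, Zf_pr]; simp
theorem Z6 (a x : ℕ) : Zf (pr (pr 6 a) x) = 0 ↔ Zf (pr a x) ≠ 0 := by
  rw [Zf_pr, tv_pr, Zf_pr]; simp
theorem Z7 (a b x : ℕ) : Zf (pr (pr 7 (pr a b)) x) = 0 ↔ Zf (pr a x) = 0 ∧ Zf (pr b x) = 0 := by
  rw [Zf_pr, tv_pr, Zf_pr, Zf_pr]; simp
theorem Z8 (a x y : ℕ) (h : Zf (pr (pr 8 a) x) = 0) : Zf (pr a (pr y x)) = 0 := by
  classical
  rw [Zf_pr, tv_pr] at h
  rw [Zf_pr]
  by_contra hn
  have hex : ∃ w, tv a (pr w x) ≠ 0 := ⟨y, hn⟩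
  simp only [dif_pos hex] at h
  exact absurd h (Nat.succ_ne_zero _)
theorem Z8' (a x w : ℕ) (h : Zf (pr (pr 8 a) x) = w + 1) : Zf (pr a (pr w x)) ≠ 0 := by
  classical
  rw [Zf_pr, tv_pr] at h
  rw [Zf_pr]
  by_cases hex : ∃ w, tv a (pr w x) ≠ 0
  · simp only [dif_pos hex] at h
    have h' : Nat.find hex = w := by omega
    rw [← h']
    exact Nat.find_spec hex
  · simp only [dif_neg hex] at h
    omega

end Pool.Agent.Helper317.TP
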